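import Mathlib
import Pool.Agent.N302.MB.Gen2

/-!
# The generic point of a large set of points at which given polynomials are units

`P` is the set of the indices of the points `y z`, `z ∈ P`, and `Lg` a property of subsets of `P`
(for instance to be infinite, or to be uncountable).
-/

set_option autoImplicit false

namespace Pool.Agent.N302.SP

open MvPolynomial Pool.Agent.N302.MB

/-- the properties of the large sets -/
structure IsLarge {P : Type} (Lg : Set P → Prop) : Prop where
  univ : Lg Set.univ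
  nonempty : ∀ A, Lg A → A.Nonempty
  split : ∀ A B C, Lg A → A ⊆ B ∪ C → Lg (A ∩ B) ∨ Lg (A ∩ C)

section

variable {Ω : Type} [Field Ω] {σ P : Type}

/-- the ideal of the polynomials which vanish at the points `y z`, `z ∈ A` -/
def vA (y : P → σ → Ω) (A : Set P) : Ideal (MvPolynomial σ Ω) where
  carrier := {p | ∀ z ∈ A, eval (y z) p = 0}
  add_mem' {a b} ha hb z hz := by rw [map_add, ha z hz, hb z hz, add_zero]
  zero_mem' z _ := map_zero _
  smul_mem' c {a} ha z hz := by rw [smul_eq_mul, map_mul, ha z hz, mul_zero]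

variable {y : P → σ → Ω} {Lg : Set P → Prop}

theorem exists_minA [Finite σ] (hL : IsLarge Lg) :
    ∃ A, Lg A ∧ ∀ A' ⊆ A, Lg A' → vA y A' ≤ vA y A := by
  obtain ⟨I, ⟨A, hA, rfl⟩, hmax⟩ := WellFounded.has_min
    (wellFounded_gt : WellFounded (α := Ideal (MvPolynomial σ Ω)) (· > ·))
    {I | ∃ A, Lg A ∧ vA y A = I} ⟨_, Set.univ, hL.univ, rfl⟩
  refine ⟨A, hA, fun A' hA' hinf => ?_⟩
  have h1 : vA y A ≤ vA y A' := fun p hp z hz => hp z (hA' hz)
  have h2 := hmax (vA y A') ⟨A', hinf, rfl⟩
  by_contra h3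
  exact h2 (lt_of_le_not_ge h1 h3)

theorem vA_prime (hL : IsLarge Lg) (A : Set P) (hA : Lg A)
    (hmin : ∀ A' ⊆ A, Lg A' → vA y A' ≤ vA y A) : (vA y A).IsPrime := by
  constructor
  · rw [Ideal.ne_top_iff_one]
    intro h
    obtain ⟨z, hz⟩ := hL.nonempty A hA
    have := h z hz
    rw [map_one] at this
    exact one_ne_zero this
  · intro p q hpq
    rcases hL.split A {z | eval (y z) p = 0} {z | eval (y z) q = 0} hA (fun z hz => by
      have h3 := hpq z hz
      rw [map_mul, mul_eq_zero] at h3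
      exact h3) with h | h
    · exact Or.inl (hmin _ Set.inter_subset_left h fun z hz => hz.2)
    · exact Or.inr (hmin _ Set.inter_subset_left h fun z hz => hz.2)

/-- the generic point -/
theorem exists_fieldA (A : Set P) (hp : (vA y A).IsPrime) :
    ∃ (F : Type) (_ : Field F) (_ : Algebra Ω F) (x : σ → F),
      (∀ p : MvPolynomial σ Ω, aeval x p = 0 ↔ ∀ z ∈ A, eval (y z) p = 0) ∧
      ∀ L : Subfield F, (∀ a : Ω, algebraMap Ω F a ∈ L) → (∀ s, x s ∈ L) → L = ⊤ := by
  have : IsDomain (MvPolynomial σ Ω ⧸ vA y A) := Ideal.Quotient.isDomain (vA y A)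
  let F := FractionRing (MvPolynomial σ Ω ⧸ vA y A)
  let x : σ → F := fun s => algebraMap (MvPolynomial σ Ω ⧸ vA y A) F (Ideal.Quotient.mk _ (X s))
  have hx : ∀ p : MvPolynomial σ Ω, aeval x p =
      algebraMap (MvPolynomial σ Ω ⧸ vA y A) F (Ideal.Quotient.mk _ p) := by
    intro p
    induction p using MvPolynomial.induction_on with
    | C a =>
      rw [aeval_C]
      rfl
    | add p q hp hq => rw [map_add, map_add, map_add, hp, hq]
    | mul_X p s hp => rw [map_mul, map_mul, map_mul, hp, aeval_X]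
  refine ⟨F, inferInstance, inferInstance, x, fun p => ?_, fun L hL hxL => ?_⟩
  · rw [hx, FaithfulSMul.algebraMap_eq_zero_iff, Ideal.Quotient.eq_zero_iff_mem]
    rfl
  · have h1 : ∀ p : MvPolynomial σ Ω, aeval x p ∈ L := by
      intro p
      induction p using MvPolynomial.induction_on with
      | C a =>
        rw [aeval_C]
        exact hL a
      | add p q hp hq =>
        rw [map_add]
        exact add_mem hp hq
      | mul_X p s hp =>
        rw [map_mul, aeval_X]
        exact mul_mem hp (hxL s)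
    rw [eq_top_iff]
    intro y' _
    obtain ⟨a, b, -, rfl⟩ := IsFractionRing.div_surjective (A := MvPolynomial σ Ω ⧸ vA y A) y'
    obtain ⟨a, rfl⟩ := Ideal.Quotient.mk_surjective a
    obtain ⟨b, rfl⟩ := Ideal.Quotient.mk_surjective b
    rw [← hx, ← hx]
    exact div_mem (h1 a) (h1 b)

end

section

variable {Ω F : Type} [Field Ω] [IsAlgClosed Ω] [Field F] [Algebra Ω F] {V : F → ℤ}

/-- constants have valuation zero -/
theorem constA (hV : IsVal V) (c : Ω) (hc : c ≠ 0) : V (algebraMap Ω F c) = 0 := by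
  obtain ⟨d, hd⟩ := IsAlgClosed.exists_pow_nat_eq c
    (n := (V (algebraMap Ω F c)).natAbs + 1) (by omega)
  have hd0 : d ≠ 0 := by
    rintro rfl
    rw [zero_pow (by omega)] at hd
    exact hc hd.symm
  have h1 : V (algebraMap Ω F c) = ((V (algebraMap Ω F c)).natAbs + 1 : ℕ) *
      V (algebraMap Ω F d) := by
    rw [← hV.pow _ ((map_ne_zero _).2 hd0), ← map_pow, hd]
  set a := V (algebraMap Ω F c)
  set b := V (algebraMap Ω F d)
  by_contra ha
  have hb : b ≠ 0 := by
    intro hb
    rw [hb, mul_zero] at h1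
    exact ha h1
  have h2 : a.natAbs = (a.natAbs + 1) * b.natAbs := by
    have := congrArg Int.natAbs h1
    rwa [Int.natAbs_mul, Int.natAbs_natCast] at this
  have h3 : 0 < b.natAbs := Int.natAbs_pos.2 hb
  have h4 := Nat.le_mul_of_pos_right (a.natAbs + 1) h3
  omega

/-- a multiplicative relation between elements implies one between the values -/
theorem relA (hV : IsVal V) {ι : Type} [Fintype ι] (u : ι → F)
    (hu : ∀ i, u i ≠ 0) (w w' : ι → ℕ) (c : Ω)
    (h : ∏ i, u i ^ w i = algebraMap Ω F c * ∏ i, u i ^ w' i) :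
    ∑ i, ((w i : ℤ) - w' i) * V (u i) = 0 := by
  have hc : c ≠ 0 := by
    rintro rfl
    rw [map_zero, zero_mul, Finset.prod_eq_zero_iff] at h
    obtain ⟨i, -, hi⟩ := h
    exact pow_ne_zero _ (hu i) hi
  have h1 : ∀ w : ι → ℕ, V (∏ i, u i ^ w i) = ∑ i, (w i : ℤ) * V (u i) := by
    intro w
    rw [hV.prod _ _ fun i _ => pow_ne_zero _ (hu i)]
    exact Finset.sum_congr rfl fun i _ => hV.pow _ (hu i) _
  have h2 := congrArg V h
  rw [hV.mul _ _ ((map_ne_zero _).2 hc) (Finset.prod_ne_zero_iff.2 fun i _ =>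
    pow_ne_zero _ (hu i)), constA hV c hc, zero_add, h1, h1] at h2
  simp only [sub_mul, Finset.sum_sub_distrib]
  omega

end

/-- The relations between the units `f i` at the points are generated by multiplicative ones. -/
def UnitRel {Ω : Type} [Field Ω] {σ P ι : Type} [Fintype ι] (Lg : Set P → Prop) (y : P → σ → Ω)
    (f : ι → MvPolynomial σ Ω) : Prop :=
  ∀ A, Lg A → ∀ Φ : MvPolynomial ι Ω, Φ ≠ 0 →
    (∀ z ∈ A, eval (fun i => eval (y z) (f i)) Φ = 0) →
      ∃ w ∈ Φ.support, ∃ w' ∈ Φ.support, w ≠ w' ∧ ∃ (c : Ω) (A' : Set P), A' ⊆ A ∧ Lg A' ∧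
        ∀ z ∈ A', ∏ i, (eval (y z) (f i)) ^ (w i) = c * ∏ i, (eval (y z) (f i)) ^ (w' i)

/-- **The generic point.** -/
theorem genericA {Ω : Type} [Field Ω] [IsAlgClosed Ω] [CharZero Ω] {σ ι P : Type} [Fintype σ]
    [Fintype ι] (Lg : Set P → Prop) (hL : IsLarge Lg) (y : P → σ → Ω) (f : ι → MvPolynomial σ Ω)
    (hf : ∀ z i, eval (y z) (f i) ≠ 0) (hrelP : UnitRel Lg y f)
    (hnc : ∀ A, Lg A → ∀ a : σ → Ω, ¬ ∀ z ∈ A, y z = a) :
    ∃ (F : Type) (_ : Field F) (_ : Algebra Ω F) (x : σ → F) (V V' : F → ℤ),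
      IsVal V ∧ IsVal V' ∧
      (∀ g : MvPolynomial σ Ω, (∀ z, eval (y z) g = 0) → aeval x g = 0) ∧
      (∀ g : MvPolynomial σ Ω, (∀ z, eval (y z) g ≠ 0) → aeval x g ≠ 0) ∧
      (∀ i, V (aeval x (f i)) + V' (aeval x (f i)) = 0) ∧
      ((∃ i, V (aeval x (f i)) ≠ 0) ∨ ∃ s, x s ≠ 0 ∧ V (x s) < 0) := by
  classical
  obtain ⟨A, hA, hmin⟩ := exists_minA (y := y) hL
  obtain ⟨F, iF, iA, x, hx, hgen⟩ := exists_fieldA A (vA_prime hL A hA hmin)
  have hcz : CharZero F := charZero_of_injective_algebraMap (algebraMap Ω F).injective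
  have hg0 : ∀ g : MvPolynomial σ Ω, (∀ z, eval (y z) g = 0) → aeval x g = 0 :=
    fun g hg => (hx g).2 fun z _ => hg z
  have hg1 : ∀ g : MvPolynomial σ Ω, (∀ z, eval (y z) g ≠ 0) → aeval x g ≠ 0 := by
    intro g hg h
    obtain ⟨z, hz⟩ := hL.nonempty A hA
    exact hg z ((hx g).1 h z hz)
  set u : ι → F := fun i => aeval x (f i) with hu
  have hu0 : ∀ i, u i ≠ 0 := fun i => hg1 _ fun z => hf z i
  have hs : ∀ L : Subfield F, (∀ a : Ω, algebraMap Ω F a ∈ L) →
      (∀ y ∈ Finset.univ.image x, y ∈ L) → L = ⊤ := fun L h1 h2 =>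
    hgen L h1 fun s => h2 _ (Finset.mem_image_of_mem x (Finset.mem_univ s))
  -- polynomial relations between the units come from multiplicative relations
  have relation : ∀ Φ : MvPolynomial ι Ω, Φ ≠ 0 → aeval u Φ = 0 →
      ∃ w w' : ι →₀ ℕ, w ≠ w' ∧ w.support ⊆ Φ.vars ∧ w'.support ⊆ Φ.vars ∧ ∃ c : Ω,
        ∏ i, (u i) ^ (w i) = algebraMap Ω F c * ∏ i, (u i) ^ (w' i) := by
    intro Φ hΦ h0
    have h1 : ∀ z ∈ A, eval (fun i => eval (y z) (f i)) Φ = 0 := by
      intro z hz
      have h3 : aeval x (bind₁ f Φ) = 0 := by rw [aeval_bind₁, h0]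
      have h4 := (hx _).1 h3 z hz
      have h5 : eval (y z) (bind₁ f Φ) = eval (fun i => eval (y z) (f i)) Φ := by
        rw [← coe_aeval_eq_eval, ← coe_aeval_eq_eval]
        simp only [RingHom.coe_coe]
        rw [aeval_bind₁]
      rwa [h5] at h4
    obtain ⟨w, hw, w', hw', hww, c, A', hA', hLA', hc⟩ := hrelP A hA Φ hΦ h1
    refine ⟨w, w', hww, ?_, ?_, c, ?_⟩
    · intro i hi
      exact (mem_vars_iff_mem_support i).2 ⟨w, hw, hi⟩
    · intro i hi
      exact (mem_vars_iff_mem_support i).2 ⟨w', hw', hi⟩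
    · have hq : (∏ i, (f i) ^ (w i) - C c * ∏ i, (f i) ^ (w' i)) ∈ vA y A' := by
        intro z hz
        have h4 := hc z hz
        rw [map_sub, map_mul, eval_C, map_prod, map_prod, sub_eq_zero]
        simp only [map_pow]
        exact h4
      have h5 := (hx _).2 (hmin A' hA' hLA' hq)
      rw [map_sub, map_mul, map_prod, map_prod, sub_eq_zero] at h5
      simp only [map_pow] at h5
      rw [aeval_C] at h5
      exact h5
  -- a maximal algebraically independent set of the units
  obtain ⟨T, hT, hTmax⟩ := Finset.exists_max_image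
    (Finset.univ.filter fun T : Finset ι => AlgebraicIndependent Ω fun i : T => u i)
    Finset.card ⟨∅, by
      rw [Finset.mem_filter]
      refine ⟨Finset.mem_univ _, ?_⟩
      rw [algebraicIndependent_empty_type_iff]
      exact (algebraMap Ω F).injective⟩
  have hTi : AlgebraicIndependent Ω fun i : T => u i := (Finset.mem_filter.1 hT).2
  have hrel : ∀ i ∉ T, ∃ w w' : ι → ℕ, w i ≠ w' i ∧ (∀ j, j ≠ i → j ∉ T → w j = 0 ∧ w' j = 0) ∧
      ∃ c : Ω, ∏ j, u j ^ w j = algebraMap Ω F c * ∏ j, u j ^ w' j := by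
    intro i hi
    have h1 : ¬ AlgebraicIndependent Ω fun j : {x // x ∈ insert i T} => u j.1 := by
      intro h
      have h2 := hTmax (insert i T) (Finset.mem_filter.2 ⟨Finset.mem_univ _, h⟩)
      rw [Finset.card_insert_of_notMem hi] at h2
      omega
    rw [algebraicIndependent_iff] at h1
    push Not at h1
    obtain ⟨Q, hQ0, hQ⟩ := h1
    have hQ' : rename (Subtype.val : {x // x ∈ insert i T} → ι) Q ≠ 0 := fun h =>
      hQ (rename_injective _ Subtype.val_injective (by rw [h, map_zero]))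
    obtain ⟨w, w', hww, hw, hw', c, hc⟩ := relation _ hQ' (by
        rw [aeval_rename]
        exact hQ0)
    have hvars : ∀ j, j ∈ (rename (Subtype.val : {x // x ∈ insert i T} → ι) Q).vars →
        j = i ∨ j ∈ T := by
      intro j hj
      have h2 := vars_rename (Subtype.val : {x // x ∈ insert i T} → ι) Q hj
      rw [Finset.mem_image] at h2
      obtain ⟨a, -, rfl⟩ := h2
      exact Finset.mem_insert.1 a.2
    have hz : ∀ v : ι →₀ ℕ, v.support ⊆
        (rename (Subtype.val : {x // x ∈ insert i T} → ι) Q).vars → ∀ j, j ≠ i → j ∉ T →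
          v j = 0 := by
      intro v hv j hji hjT
      by_contra h
      rcases hvars j (hv (Finsupp.mem_support_iff.2 h)) with h | h
      · exact hji h
      · exact hjT h
    refine ⟨w, w', ?_, fun j hji hjT => ⟨hz w hw j hji hjT, hz w' hw' j hji hjT⟩, c, hc⟩
    intro heq
    -- cancel the factor `u i`
    have hprod : ∀ v : ι →₀ ℕ, v.support ⊆
        (rename (Subtype.val : {x // x ∈ insert i T} → ι) Q).vars →
          ∏ j, u j ^ v j = u i ^ v i * ∏ j : T, u j ^ v j := by
      intro v hv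
      have h3 : ∏ j, u j ^ v j = ∏ j ∈ insert i T, u j ^ v j := by
        refine (Finset.prod_subset (Finset.subset_univ _) fun j _ hj => ?_).symm
        rw [Finset.mem_insert, not_or] at hj
        rw [hz v hv j hj.1 hj.2, pow_zero]
      rw [h3, Finset.prod_insert hi, ← Finset.prod_coe_sort T]
    have hc' : ∏ j, u j ^ w j = algebraMap Ω F c * ∏ j, u j ^ w' j := hc
    rw [hprod w hw, hprod w' hw', heq, mul_left_comm] at hc'
    have h4 := mul_left_cancel₀ (pow_ne_zero _ (hu0 i)) hc'
    have h5 : aeval (fun j : T => u j)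
        (∏ j : T, (X j : MvPolynomial T Ω) ^ w j - C c * ∏ j : T, X j ^ w' j) = 0 := by
      rw [map_sub, map_mul, map_prod, map_prod, aeval_C]
      simp only [map_pow, aeval_X]
      rw [h4, sub_self]
    have h6 := (algebraicIndependent_iff.1 hTi) _ h5
    have hmon : ∀ v : ι →₀ ℕ, ∏ j : T, (X j : MvPolynomial T Ω) ^ v j =
        monomial (Finsupp.equivFunOnFinite.symm fun j : T => v j) 1 := by
      intro v
      rw [monomial_eq, C_1, one_mul, Finsupp.prod_fintype _ _ (fun j => pow_zero _)]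
      rfl
    rw [hmon, hmon, C_mul_monomial, mul_one] at h6
    have h7 : (Finsupp.equivFunOnFinite.symm fun j : T => w j) =
        Finsupp.equivFunOnFinite.symm fun j : T => w' j := by
      by_contra hne
      have h8 := congrArg (coeff (Finsupp.equivFunOnFinite.symm fun j : T => w j)) h6
      rw [coeff_sub, coeff_monomial, coeff_monomial, if_pos rfl, if_neg (Ne.symm hne), sub_zero,
        coeff_zero] at h8
      exact one_ne_zero h8
    apply hww
    ext j
    by_cases hji : j = i
    · rw [hji, heq]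
    · by_cases hjT : j ∈ T
      · have := congrFun (congrArg DFunLike.coe h7) ⟨j, hjT⟩
        exact this
      · rw [hz w hw j hji hjT, hz w' hw' j hji hjT]
  -- the values at the units are determined by those at the members of `T`
  have hval : ∀ V V' : F → ℤ, IsVal V → IsVal V' → (∀ t ∈ T, V (u t) + V' (u t) = 0) →
      ∀ i, V (u i) + V' (u i) = 0 := by
    intro V V' hV hV' hVT i
    by_cases hi : i ∈ T
    · exact hVT i hi
    obtain ⟨w, w', hne, hz, c, hc⟩ := hrel i hi
    have h1 := relA hV u hu0 w w' c hc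
    have h2 := relA hV' u hu0 w w' c hc
    have h3 : ∑ j, ((w j : ℤ) - w' j) * (V (u j) + V' (u j)) = 0 := by
      simp only [mul_add, Finset.sum_add_distrib]
      omega
    rw [Finset.sum_eq_single i] at h3
    · rcases mul_eq_zero.1 h3 with h | h
      · exact absurd (by omega : w i = w' i) hne
      · exact h
    · intro j _ hji
      by_cases hj : j ∈ T
      · rw [hVT j hj, mul_zero]
      · rw [(hz j hji hj).1, (hz j hji hj).2]
        simp
    · intro h
      exact absurd (Finset.mem_univ i) h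
  by_cases hTe : T = ∅
  · -- all units are constant
    have hV0 : ∀ V : F → ℤ, IsVal V → ∀ i, V (u i) = 0 := by
      intro V hV i
      have := hval V V hV hV (by rw [hTe]; simp) i
      omega
    have hex : ∃ s, Transcendental Ω (x s) := by
      by_contra hcon
      push Not at hcon
      have h1 : ∀ s, ∃ a : Ω, algebraMap Ω F a = x s := by
        intro s
        have h2 : IsAlgebraic Ω (x s) := by
          have := hcon s
          rwa [Transcendental, not_not] at this
        have h3 : (minpoly Ω (x s)).degree = 1 :=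
          IsAlgClosed.degree_eq_one_of_irreducible _ (minpoly.irreducible h2.isIntegral)
        exact minpoly.mem_range_of_degree_eq_one Ω (x s) h3
      choose a ha using h1
      apply hnc A hA a
      intro z hz
      funext s
      have h4 : aeval x (X s - C (a s)) = 0 := by
        rw [map_sub, aeval_X, aeval_C, ha, sub_self]
      have h5 := (hx _).1 h4 z hz
      rw [map_sub, eval_X, eval_C, sub_eq_zero] at h5
      exact h5
    obtain ⟨s, hs1⟩ := hex
    have hxs0 : x s ≠ 0 := fun h => hs1 (h ▸ isAlgebraic_zero)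
    obtain ⟨B, hsB, hB⟩ := exists_isTranscendenceBasis_superset (R := Ω) (s := {x s}) (by
      rw [AlgebraicIndepOn, algebraicIndependent_unique_type_iff]
      exact hs1)
    obtain ⟨V, hV, hV1, -⟩ := exists_val_basis B hB (x s) (hsB rfl) _ hs (x s)⁻¹ (Or.inr rfl)
    refine ⟨F, iF, iA, x, V, V, hV, hV, hg0, hg1, fun i => ?_, Or.inr ⟨s, hxs0, ?_⟩⟩
    · have := hV0 V hV i
      show V (u i) + V (u i) = 0
      omega
    · rw [hV.inv _ hxs0] at hV1
      omega
  · obtain ⟨t0, ht0⟩ := Finset.nonempty_iff_ne_empty.2 hTe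
    have hind : AlgebraicIndepOn Ω (id : F → F) (Set.range fun i : T => u i) :=
      hTi.to_subtype_range
    obtain ⟨B, hsB, hB⟩ := exists_isTranscendenceBasis_superset hind
    have hB0 : ∀ t ∈ T, u t ∈ B := fun t ht => hsB ⟨⟨t, ht⟩, rfl⟩
    obtain ⟨V0, hV0, hV01, hV02⟩ := exists_val_basis B hB (u t0) (hB0 t0 ht0) _ hs (u t0)
      (Or.inl rfl)
    obtain ⟨V1, hV1, hV11, hV12⟩ := exists_val_basis B hB (u t0) (hB0 t0 ht0) _ hs (u t0)⁻¹
      (Or.inr rfl)
    rw [hV1.inv _ (hu0 t0)] at hV11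
    refine ⟨F, iF, iA, x, fun a => (-V1 (u t0)) * V0 a, fun a => V0 (u t0) * V1 a,
      hV0.smul _ hV11.le, hV1.smul _ hV01.le, hg0, hg1,
      hval _ _ (hV0.smul _ hV11.le) (hV1.smul _ hV01.le) ?_, Or.inl ⟨t0, ?_⟩⟩
    · intro t ht
      show (-V1 (u t0)) * V0 (u t) + V0 (u t0) * V1 (u t) = 0
      by_cases htt : u t = u t0
      · rw [htt]
        ring
      · rw [hV02 _ (hB0 t ht) htt, hV12 _ (hB0 t ht) htt]
        ring
    · show (-V1 (u t0)) * V0 (u t0) ≠ 0
      exact (mul_pos hV11 hV01).ne'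

end Pool.Agent.N302.SP
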