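import Mathlib
import Pool.Agent.N302.SP.GenA
import Pool.Agent.N302.MB.Core

/-!
# Large families of points of symmetric powers: moduli of points on the line, tropical criterion
-/

set_option autoImplicit false

namespace Pool.Agent.N302.SP

open MvPolynomial Pool.Agent.N302.MB

section

variable {F : Type} [Field F] {V : F → ℤ}

/-- the valuation of a sum -/
theorem le_sum (hV : IsVal V) {ι : Type} (m : ℤ) (s : Finset ι) (g : ι → F) :
    (∀ i ∈ s, g i ≠ 0 → m ≤ V (g i)) → ∑ i ∈ s, g i ≠ 0 → m ≤ V (∑ i ∈ s, g i) := by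
  classical
  induction s using Finset.induction_on with
  | empty =>
    intro _ h
    exact absurd Finset.sum_empty h
  | insert a s ha ih =>
    intro h1 h2
    rw [Finset.sum_insert ha] at h2 ⊢
    by_cases hs : ∑ i ∈ s, g i = 0
    · rw [hs, add_zero] at h2 ⊢
      exact h1 a (Finset.mem_insert_self a s) h2
    · have h3 := ih (fun i hi => h1 i (Finset.mem_insert_of_mem hi)) hs
      by_cases hga : g a = 0
      · rw [hga, zero_add]
        exact h3
      · have h4 := h1 a (Finset.mem_insert_self a s) hga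
        exact (le_min h4 h3).trans (hV.add _ _ hga hs h2)

/-- If a sum of elements different from zero is zero, the smallest valuation occurs twice. -/
theorem min_twice (hV : IsVal V) {ι : Type} (s : Finset ι) (hs : s.Nonempty) (g : ι → F)
    (hg : ∀ i ∈ s, g i ≠ 0) (h0 : ∑ i ∈ s, g i = 0) :
    ∃ a ∈ s, ∃ b ∈ s, a ≠ b ∧ V (g a) = V (g b) ∧ ∀ c ∈ s, V (g a) ≤ V (g c) := by
  classical
  obtain ⟨a, ha, hmin⟩ := Finset.exists_min_image s (fun i => V (g i)) hs
  by_cases h : ∃ b ∈ s, a ≠ b ∧ V (g a) = V (g b)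
  · obtain ⟨b, hb, hab, he⟩ := h
    exact ⟨a, ha, b, hb, hab, he, hmin⟩
  · exfalso
    push Not at h
    have h1 : ∑ i ∈ s.erase a, g i = - g a := by
      rw [← Finset.add_sum_erase s g ha] at h0
      exact eq_neg_of_add_eq_zero_right h0
    have h2 : ∑ i ∈ s.erase a, g i ≠ 0 := by
      rw [h1]
      exact neg_ne_zero.2 (hg a ha)
    have h3 := le_sum hV (V (g a) + 1) (s.erase a) g (fun i hi _ => by
      have h4 := hmin i (Finset.mem_of_mem_erase hi)
      have h5 := h i (Finset.mem_of_mem_erase hi) (Finset.ne_of_mem_erase hi).symm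
      omega) h2
    rw [h1, hV.neg _ (hg a ha)] at h3
    omega

end

/-- The integer vector `w` belongs to the tropical variety of the polynomials in `I`: for every
nonzero `p ∈ I` the minimum of `w · α` over the exponents `α` of `p` occurs at least twice. -/
def TropIn {K : Type} [Field K] {N : ℕ} (I : Set (MvPolynomial (Fin N) K)) (w : Fin N → ℤ) : Prop :=
  ∀ p ∈ I, p ≠ 0 → ∃ α ∈ p.support, ∃ β ∈ p.support, α ≠ β ∧
    ∑ i, w i * (α i : ℤ) = ∑ i, w i * (β i : ℤ) ∧
      ∀ γ ∈ p.support, ∑ i, w i * (α i : ℤ) ≤ ∑ i, w i * (γ i : ℤ)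

section

variable {Ω : Type} [Field Ω] [IsAlgClosed Ω]

theorem tropIn_val {K : Type} [Field K] (κ : K →+* Ω) {N : ℕ} (I : Set (MvPolynomial (Fin N) K))
    {F : Type} [Field F] [Algebra Ω F] {V : F → ℤ} (hV : IsVal V) (x : Fin N → F)
    (hx0 : ∀ i, x i ≠ 0) (hx : ∀ p ∈ I, aeval x (map κ p) = 0) :
    TropIn I fun i => V (x i) := by
  intro p hp hp0
  have h1 : ∑ α ∈ p.support, algebraMap Ω F (κ (coeff α p)) * ∏ i, x i ^ α i = 0 := by
    rw [← hx p hp, aeval_def, eval₂_map, eval₂_eq']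
    rfl
  have hne : ∀ α ∈ p.support, algebraMap Ω F (κ (coeff α p)) ≠ 0 := by
    intro α hα
    rw [Ne, map_eq_zero, map_eq_zero]
    exact mem_support_iff.1 hα
  have hval : ∀ α ∈ p.support, V (algebraMap Ω F (κ (coeff α p)) * ∏ i, x i ^ α i) =
      ∑ i, V (x i) * (α i : ℤ) := by
    intro α hα
    have h2 : κ (coeff α p) ≠ 0 := fun h => hne α hα (by rw [h, map_zero])
    rw [hV.mul _ _ (hne α hα) (Finset.prod_ne_zero_iff.2 fun i _ => pow_ne_zero _ (hx0 i)),
      constA hV _ h2, zero_add, hV.prod _ _ fun i _ => pow_ne_zero _ (hx0 i)]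
    refine Finset.sum_congr rfl fun i _ => ?_
    rw [hV.pow _ (hx0 i), mul_comm]
  obtain ⟨α, hα, β, hβ, hab, he, hmin⟩ := min_twice hV p.support (support_nonempty.2 hp0)
    (fun α => algebraMap Ω F (κ (coeff α p)) * ∏ i, x i ^ α i) (fun α hα => mul_ne_zero (hne α hα)
      (Finset.prod_ne_zero_iff.2 fun i _ => pow_ne_zero _ (hx0 i))) h1
  refine ⟨α, hα, β, hβ, hab, ?_, fun γ hγ => ?_⟩
  · rw [← hval α hα, ← hval β hβ]
    exact he
  · rw [← hval α hα, ← hval γ hγ]
    exact hmin γ hγ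

end

section

variable {Ω : Type} [Field Ω] [IsAlgClosed Ω] [CharZero Ω] {P : Type}

/-- the norms of the differences of the coordinates -/
noncomputable def fM (Ω : Type) [Field Ω] (d M : ℕ) (p : {p : Fin (M + 2) × Fin (M + 2) // p.1 ≠ p.2}) :
    MvPolynomial (Fin d × Fin (M + 2)) Ω := ∏ t, (X (t, p.1.1) - X (t, p.1.2))

theorem eval_fM {d M : ℕ} (p : {p : Fin (M + 2) × Fin (M + 2) // p.1 ≠ p.2})
    (y : Fin d × Fin (M + 2) → Ω) :
    eval y (fM Ω d M p) = ∏ t, (y (t, p.1.1) - y (t, p.1.2)) := by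
  simp only [fM, map_prod, map_sub, eval_X]

/-- **The core theorem for `M_{0,M+3}`.** -/
theorem coreM (Lg : Set P → Prop) (hL : IsLarge Lg) (d M : ℕ) (hd : 1 ≤ d) (hM : bq (2 * d) < M + 2)
    (y : P → Fin d × Fin (M + 2) → Ω) (hy0 : ∀ z t, y z (t, 0) = 0) (hy1 : ∀ z t, y z (t, 1) = 1)
    (hyn : ∀ z t a b, a ≠ b → y z (t, a) ≠ y z (t, b)) (hrel : UnitRel Lg y (fM Ω d M))
    (hnc : ∀ A, Lg A → ∀ a : Fin d × Fin (M + 2) → Ω, ¬ ∀ z ∈ A, y z = a) : False := by
  classical
  obtain ⟨F, iF, iA, x, V, V', hV, hV', hg0, hg1, hVV, halt⟩ := genericA Lg hL y (fM Ω d M)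
    (fun z p => by
      rw [eval_fM]
      exact Finset.prod_ne_zero_iff.2 fun t _ => sub_ne_zero.2 (hyn z t _ _ p.2)) hrel hnc
  have hx0 : ∀ t, x (t, 0) = 0 := fun t => by
    have := hg0 (X (t, 0)) fun z => by
      rw [eval_X]
      exact hy0 z t
    rwa [aeval_X] at this
  have hx1 : ∀ t, x (t, 1) = 1 := fun t => by
    have := hg0 (X (t, 1) - 1) fun z => by
      rw [map_sub, eval_X, map_one, hy1 z t, sub_self]
    rw [map_sub, aeval_X, map_one] at this
    exact sub_eq_zero.1 this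
  have hxn : ∀ t a b, a ≠ b → x (t, a) ≠ x (t, b) := fun t a b hab => by
    have := hg1 (X (t, a) - X (t, b)) fun z => by
      rw [map_sub, eval_X, eval_X]
      exact sub_ne_zero.2 (hyn z t a b hab)
    rw [map_sub, aeval_X, aeval_X] at this
    exact sub_ne_zero.1 this
  have hprod : ∀ (W : F → ℤ), IsVal W → ∀ a b, a ≠ b →
      ∑ t : Fin d, W (x (t, a) - x (t, b)) = W (∏ t : Fin d, (x (t, a) - x (t, b))) := by
    intro W hW a b hab
    rw [hW.prod _ _ fun t _ => sub_ne_zero.2 (hxn t a b hab)]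
  let e : Fin d ⊕ Fin d → Fin (M + 2) → Fin (M + 2) → ℤ := fun p a b =>
    Sum.elim (fun t => V (x (t, a) - x (t, b))) (fun t => V' (x (t, a) - x (t, b))) p
  have he : ∀ p, Ult (e p) := by
    rintro (t | t)
    · exact hV.ult (fun a => x (t, a)) (hxn t)
    · exact hV'.ult (fun a => x (t, a)) (hxn t)
  have hfx : ∀ p, aeval x (fM Ω d M p) = ∏ t, (x (t, p.1.1) - x (t, p.1.2)) := by
    intro p
    simp only [fM, map_prod, map_sub, aeval_X]
  have hsum : ∀ a b, a ≠ b → ∑ p, e p a b = 0 := by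
    intro a b hab
    rw [Fintype.sum_sum_type]
    show ∑ t : Fin d, V (x (t, a) - x (t, b)) + ∑ t : Fin d, V' (x (t, a) - x (t, b)) = 0
    rw [hprod V hV a b hab, hprod V' hV' a b hab]
    have := hVV ⟨(a, b), hab⟩
    rw [hfx] at this
    exact this
  have hcard : Fintype.card (Fin d ⊕ Fin d) = 2 * d := by
    rw [Fintype.card_sum, Fintype.card_fin]
    ring
  have htrop := trop_quad e he 0 hsum (by rw [hcard]; omega)
    (by rw [hcard, Fintype.card_fin]; exact hM)
  have h01 : (0 : Fin (M + 2)) ≠ 1 := by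
    intro h
    have := congrArg Fin.val h
    simp at this
  have hV0 : ∀ t a b, a ≠ b → V (x (t, a) - x (t, b)) = 0 := by
    intro t a b hab
    obtain ⟨c, hc⟩ := htrop (Sum.inl t)
    have h1 : V (x (t, a) - x (t, b)) = c := hc a b hab
    have h2 : V (x (t, 1) - x (t, 0)) = c := hc 1 0 h01.symm
    rw [hx0, hx1, sub_zero, hV.one] at h2
    rw [h1, ← h2]
  rcases halt with ⟨p, hp⟩ | ⟨⟨t, a⟩, ha0, ha⟩
  · apply hp
    rw [hfx, hV.prod _ _ fun t _ => sub_ne_zero.2 (hxn t _ _ p.2)]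
    exact Finset.sum_eq_zero fun t _ => hV0 t _ _ p.2
  · by_cases h : a = 0
    · rw [h] at ha0
      exact ha0 (hx0 t)
    · have := hV0 t a 0 h
      rw [hx0, sub_zero] at this
      omega

/-- the norms of the coordinates -/
noncomputable def fT (Ω : Type) [Field Ω] (d N : ℕ) (i : Fin N) : MvPolynomial (Fin d × Fin N) Ω :=
  ∏ t, X (t, i)

theorem eval_fT {d N : ℕ} (i : Fin N) (y : Fin d × Fin N → Ω) :
    eval y (fT Ω d N i) = ∏ t, y (t, i) := by
  simp only [fT, map_prod, eval_X]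

/-- **The core theorem for very affine varieties.** -/
theorem coreT (Lg : Set P → Prop) (hL : IsLarge Lg) (d N : ℕ) {K : Type} [Field K] (κ : K →+* Ω)
    (I : Set (MvPolynomial (Fin N) K))
    (hT : ∀ w : Fin d ⊕ Fin d → Fin N → ℤ, (∀ j, TropIn I (w j)) → (∀ i, ∑ j, w j i = 0) →
      ∀ j i, w j i = 0)
    (y : P → Fin d × Fin N → Ω) (hy0 : ∀ z t i, y z (t, i) ≠ 0)
    (hyI : ∀ z t, ∀ p ∈ I, eval (fun i => y z (t, i)) (map κ p) = 0)
    (hrel : UnitRel Lg y (fT Ω d N))
    (hnc : ∀ A, Lg A → ∀ a : Fin d × Fin N → Ω, ¬ ∀ z ∈ A, y z = a) : False := by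
  classical
  obtain ⟨F, iF, iA, x, V, V', hV, hV', hg0, hg1, hVV, halt⟩ := genericA Lg hL y (fT Ω d N)
    (fun z i => by
      rw [eval_fT]
      exact Finset.prod_ne_zero_iff.2 fun t _ => hy0 z t i) hrel hnc
  have hxn : ∀ t i, x (t, i) ≠ 0 := fun t i => by
    have := hg1 (X (t, i)) fun z => by
      rw [eval_X]
      exact hy0 z t i
    rwa [aeval_X] at this
  have hxI : ∀ t, ∀ p ∈ I, aeval (fun i => x (t, i)) (map κ p) = 0 := by
    intro t p hp
    have h1 := hg0 (rename (fun i => (t, i)) (map κ p)) fun z => by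
      rw [eval_rename]
      exact hyI z t p hp
    rw [aeval_rename] at h1
    exact h1
  let w : Fin d ⊕ Fin d → Fin N → ℤ := fun j i =>
    Sum.elim (fun t => V (x (t, i))) (fun t => V' (x (t, i))) j
  have hw : ∀ j, TropIn I (w j) := by
    rintro (t | t)
    · exact tropIn_val κ I hV (fun i => x (t, i)) (hxn t) (hxI t)
    · exact tropIn_val κ I hV' (fun i => x (t, i)) (hxn t) (hxI t)
  have hsum : ∀ i, ∑ j, w j i = 0 := by
    intro i
    rw [Fintype.sum_sum_type]
    show ∑ t : Fin d, V (x (t, i)) + ∑ t : Fin d, V' (x (t, i)) = 0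
    have h1 := hVV i
    simp only [fT, map_prod, aeval_X] at h1
    rw [hV.prod _ _ fun t _ => hxn t i, hV'.prod _ _ fun t _ => hxn t i] at h1
    exact h1
  have h0 := hT w hw hsum
  rcases halt with ⟨i, hi⟩ | ⟨⟨t, i⟩, -, ha⟩
  · apply hi
    simp only [fT, map_prod, aeval_X]
    rw [hV.prod _ _ fun t _ => hxn t i]
    exact Finset.sum_eq_zero fun t _ => h0 (Sum.inl t) i
  · have h1 : V (x (t, i)) = 0 := h0 (Sum.inl t) i
    omega

end

end Pool.Agent.N302.SP
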