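import Mathlib
import Pool.Agent.N302.SP.CoreA
import Pool.Agent.H159R3.Exp.Borel

/-!
# Multivalued entire functions without zeros
-/

set_option autoImplicit false

namespace Pool.Agent.N302.SP

open MvPolynomial Filter Topology

/-- Newton's identities: if the power sums are in a subalgebra, so are the elementary symmetric
functions. -/
theorem esymm_mem {R : Type} [CommRing R] [Algebra ℚ R] (A : Subalgebra ℚ R) {r : ℕ} (z : Fin r → R)
    (h : ∀ j : ℕ, ∑ t, z t ^ j ∈ A) (k : ℕ) : aeval z (esymm (Fin r) ℚ k) ∈ A := by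
  induction k using Nat.strong_induction_on with
  | _ k ih =>
    by_cases hk : k = 0
    · rw [hk, esymm_zero, map_one]
      exact one_mem A
    · have h1 := congrArg (aeval z) (mul_esymm_eq_sum (Fin r) ℚ k)
      rw [map_mul, map_natCast, map_mul, map_sum] at h1
      have h2 : aeval z (esymm (Fin r) ℚ k) = (k : ℚ)⁻¹ • ((k : R) * aeval z (esymm (Fin r) ℚ k)) := by
        rw [Algebra.smul_def, ← mul_assoc, ← map_natCast (algebraMap ℚ R) k, ← map_mul,
          inv_mul_cancel₀ (by exact_mod_cast hk), map_one, one_mul]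
      rw [h2, h1]
      refine A.smul_mem (mul_mem ?_ (sum_mem fun a ha => ?_)) _
      · rw [map_pow, map_neg, map_one]
        exact pow_mem (neg_mem (one_mem A)) _
      · rw [Finset.mem_filter] at ha
        rw [map_mul, map_mul, map_pow, map_neg, map_one]
        refine mul_mem (mul_mem (pow_mem (neg_mem (one_mem A)) _) (ih _ ha.2)) ?_
        rw [psum, map_sum]
        simp only [map_pow, aeval_X]
        exact h _

/-- the product -/
theorem prod_mem_of_psum {R : Type} [CommRing R] [Algebra ℚ R] (A : Subalgebra ℚ R) {r : ℕ}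
    (z : Fin r → R) (h : ∀ j : ℕ, ∑ t, z t ^ j ∈ A) : ∏ t, z t ∈ A := by
  have h1 := esymm_mem A z h r
  have h2 : aeval z (esymm (Fin r) ℚ r) = ∏ t, z t := by
    rw [esymm]
    have h3 : Finset.powersetCard r (Finset.univ : Finset (Fin r)) = {Finset.univ} := by
      have := Finset.powersetCard_self (Finset.univ : Finset (Fin r))
      rwa [Finset.card_univ, Fintype.card_fin] at this
    rw [h3, Finset.sum_singleton, map_prod]
    simp only [aeval_X]
  rwa [h2] at h1

/-- the entire functions -/
def entA : Subalgebra ℚ (ℂ → ℂ) where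
  carrier := {h | Differentiable ℂ h}
  mul_mem' {a b} ha hb := ha.mul hb
  add_mem' {a b} ha hb := ha.add hb
  algebraMap_mem' q := by
    show Differentiable ℂ (fun _ : ℂ => algebraMap ℚ ℂ q)
    exact differentiable_const _

/-- an entire function without zeros is an exponential -/
theorem entire_log {G : ℂ → ℂ} (hG : Differentiable ℂ G) (hne : ∀ z, G z ≠ 0) :
    ∃ P : ℂ → ℂ, Differentiable ℂ P ∧ ∀ z, G z = Complex.exp (P z) := by
  have hd : Differentiable ℂ (fun z => deriv G z / G z) :=
    (hG.deriv).fun_div hG hne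
  obtain ⟨P, hP⟩ := hd.isExactOn_univ
  have h1 : ∀ z, HasDerivAt (fun z => G z * Complex.exp (-P z)) 0 z := by
    intro z
    have h2 := (hG z).hasDerivAt.mul ((hP z (Set.mem_univ z)).neg.cexp)
    have e : deriv G z * Complex.exp (-P z)
        + G z * (Complex.exp (-P z) * -(deriv G z / G z)) = 0 := by
      have := hne z
      field_simp
      ring
    have h3 : HasDerivAt (fun z => G z * Complex.exp (-P z)) (deriv G z * Complex.exp (-P z)
        + G z * (Complex.exp (-P z) * -(deriv G z / G z))) z := h2
    rw [e] at h3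
    exact h3
  have h2 : ∀ z, G z * Complex.exp (-P z) = G 0 * Complex.exp (-P 0) := fun z =>
    is_const_of_deriv_eq_zero (fun z => (h1 z).differentiableAt) (fun z => (h1 z).deriv) z 0
  set c : ℂ := G 0 * Complex.exp (-P 0) with hc
  have hc0 : c ≠ 0 := mul_ne_zero (hne 0) (Complex.exp_ne_zero _)
  refine ⟨fun z => Complex.log c + P z,
    (fun z => ((hP z (Set.mem_univ z)).differentiableAt).const_add _), ?_⟩
  intro z
  rw [Complex.exp_add, Complex.exp_log hc0, ← h2 z, mul_assoc, ← Complex.exp_add, neg_add_cancel,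
    Complex.exp_zero, mul_one]

/-- An entire function which vanishes on an uncountable set is zero. -/
theorem zero_of_uncountable {h : ℂ → ℂ} (hh : Differentiable ℂ h) (A : Set ℂ) (hA : ¬ A.Countable)
    (h0 : ∀ z ∈ A, h z = 0) : ∀ z, h z = 0 := by
  obtain ⟨n, hn⟩ : ∃ n : ℕ, (A ∩ Metric.closedBall 0 n).Infinite := by
    by_contra hcon
    push Not at hcon
    apply hA
    have h1 : A ⊆ ⋃ n : ℕ, A ∩ Metric.closedBall 0 n := by
      intro z hz
      obtain ⟨n, hn⟩ := exists_nat_ge ‖z‖
      exact Set.mem_iUnion.2 ⟨n, hz, by simpa using hn⟩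
    exact (Set.countable_iUnion fun n => (hcon n).countable).mono h1
  obtain ⟨x, -, hx⟩ := hn.exists_accPt_of_subset_isCompact (isCompact_closedBall (0 : ℂ) n)
    Set.inter_subset_right
  have hfr : ∃ᶠ z in 𝓝[≠] x, h z = 0 := by
    rw [accPt_iff_frequently_nhdsNE] at hx
    exact hx.mono fun z hz => h0 z hz.1
  have h1 := (hh.differentiableOn.analyticOnNhd isOpen_univ).eqOn_zero_of_preconnected_of_frequently_eq_zero
    isPreconnected_univ (Set.mem_univ x) hfr
  intro z
  exact h1 (Set.mem_univ z)

/-- the uncountable sets -/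
theorem isLarge_unc : IsLarge fun A : Set ℂ => ¬ A.Countable where
  univ := not_countable_complex
  nonempty A hA := by
    by_contra h
    rw [Set.not_nonempty_iff_eq_empty] at h
    apply hA
    rw [h]
    exact Set.countable_empty
  split A B C hA hs := by
    by_contra h
    push Not at h
    apply hA
    refine (h.1.union h.2).mono fun z hz => ?_
    exact (hs hz).imp (fun h => ⟨hz, h⟩) fun h => ⟨hz, h⟩

/-- **Borel's theorem.** -/
theorem unitRel_ent {σ ι : Type} [Fintype ι] (y : ℂ → σ → ℂ) (f : ι → MvPolynomial σ ℂ)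
    (hf : ∀ i, Differentiable ℂ fun z => eval (y z) (f i)) (hf0 : ∀ z i, eval (y z) (f i) ≠ 0) :
    UnitRel (fun A : Set ℂ => ¬ A.Countable) y f := by
  classical
  intro A hA Φ hΦ h0
  choose G hG hG2 using fun i => entire_log (hf i) fun z => hf0 z i
  have hent : Differentiable ℂ fun z => eval (fun i => eval (y z) (f i)) Φ := by
    have h1 : (fun z => eval (fun i => eval (y z) (f i)) Φ) =
        fun z => ∑ w ∈ Φ.support, coeff w Φ * ∏ i, (eval (y z) (f i)) ^ w i := by
      funext z
      rw [eval_eq']
    rw [h1]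
    refine Differentiable.fun_sum fun w _ => (differentiable_const _).mul ?_
    exact Differentiable.fun_finsetProd fun i _ => (hf i).pow _
  have hz := zero_of_uncountable hent A hA h0
  by_contra hcon
  push Not at hcon
  -- the monomials are independent
  have hmon : ∀ (w : ι →₀ ℕ) (z : ℂ), ∏ i, (eval (y z) (f i)) ^ w i =
      Complex.exp (∑ i, (w i : ℂ) * G i z) := by
    intro w z
    rw [Complex.exp_sum]
    refine Finset.prod_congr rfl fun i _ => ?_
    rw [Complex.exp_nat_mul, ← hG2]
  have h1 := Pool.Agent.H159R3.Exp.borel_spec (B := Φ.support → ℂ) (ι := Φ.support)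
    (fun w z => ∑ i, (w.1 i : ℂ) * G i z)
    (fun w => Differentiable.fun_sum fun i _ => (differentiable_const _).mul (hG i))
    (fun w => Pi.single w 1) (by
      intro w w' c hc
      by_cases hww : w = w'
      · subst hww
        have : c = 0 := by
          have := hc 0
          linear_combination -this
        rw [this, Complex.exp_zero, one_smul]
      · exfalso
        obtain ⟨z, -, hz'⟩ := hcon w.1 w.2 w'.1 w'.2 (fun h => hww (Subtype.ext h))
          (Complex.exp c) A subset_rfl hA
        apply hz'
        rw [hmon, hmon, ← Complex.exp_add]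
        congr 1
        have := hc z
        rw [this, add_comm]) Finset.univ (fun w => coeff w.1 Φ) (by
      intro z
      rw [← hz z, eval_eq', ← Finset.sum_coe_sort Φ.support]
      refine Finset.sum_congr rfl fun w _ => ?_
      rw [hmon])
  obtain ⟨w, hw⟩ := support_nonempty.2 hΦ
  have h2 := congrFun h1 ⟨w, hw⟩
  rw [Finset.sum_apply, Finset.sum_eq_single ⟨w, hw⟩] at h2
  · simp only [Pi.smul_apply, Pi.single_eq_same, smul_eq_mul, mul_one, Pi.zero_apply] at h2
    exact mem_support_iff.1 hw h2
  · intro b _ hb
    simp only [Pi.smul_apply, smul_eq_mul]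
    rw [Pi.single_eq_of_ne (Ne.symm hb), mul_zero]
  · intro h
    exact absurd (Finset.mem_univ _) h

end Pool.Agent.N302.SP
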