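import Mathlib

/-!
# Points of symmetric powers are determined by the power sums
-/

set_option autoImplicit false

namespace Pool.Agent.N302.SP

open MvPolynomial

theorem perm_of_card {α β : Type} [Fintype α] [DecidableEq β] (f g : α → β)
    (h : ∀ v, (Finset.univ.filter fun t => f t = v).card = (Finset.univ.filter fun t => g t = v).card) :
    ∃ s : Equiv.Perm α, ∀ t, f t = g (s t) := by
  classical
  have h1 : ∀ v, Nonempty ({t // f t = v} ≃ {t // g t = v}) := fun v => by
    refine ⟨Fintype.equivOfCardEq ?_⟩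
    rw [Fintype.card_subtype, Fintype.card_subtype]
    exact h v
  let e : Equiv.Perm α := (Equiv.sigmaFiberEquiv f).symm.trans
    ((Equiv.sigmaCongrRight fun v => (h1 v).some).trans (Equiv.sigmaFiberEquiv g))
  refine ⟨e, fun t => ?_⟩
  have h2 : e t = ((h1 (f t)).some ⟨t, rfl⟩ : {t' // g t' = f t}).1 := rfl
  rw [h2]
  exact ((h1 (f t)).some ⟨t, rfl⟩).2.symm

section

variable {k : Type} [Field k] {N : ℕ}

/-- a polynomial with given zeros -/
theorem exists_sep (T : Finset (Fin N → k)) (v : Fin N → k) :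
    ∃ P : MvPolynomial (Fin N) k, eval v P = 1 ∧ ∀ v' ∈ T, v' ≠ v → eval v' P = 0 := by
  classical
  have h1 : ∀ v' : Fin N → k, ∃ Q : MvPolynomial (Fin N) k, eval v Q = 1 ∧ (v' ≠ v → eval v' Q = 0) := by
    intro v'
    by_cases h : v' = v
    · exact ⟨1, map_one _, fun h' => absurd h h'⟩
    · obtain ⟨i, hi⟩ : ∃ i, v' i ≠ v i := by
        by_contra hcon
        push Not at hcon
        exact h (funext hcon)
      refine ⟨C (v i - v' i)⁻¹ * (X i - C (v' i)), ?_, fun _ => ?_⟩
      · rw [map_mul, map_sub, eval_C, eval_X, eval_C]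
        exact inv_mul_cancel₀ (sub_ne_zero.2 (Ne.symm hi))
      · rw [map_mul, map_sub, eval_C, eval_X, eval_C, sub_self, mul_zero]
  choose Q hQ1 hQ2 using h1
  refine ⟨∏ v' ∈ T, Q v', ?_, fun v' hv' hne => ?_⟩
  · rw [map_prod]
    exact Finset.prod_eq_one fun v' _ => hQ1 v'
  · rw [map_prod]
    exact Finset.prod_eq_zero hv' (hQ2 v' hne)

/-- Points with the same power sums are equal up to the order. -/
theorem same_of_sums [CharZero k] {r : ℕ} (y y' : Fin r → Fin N → k)
    (h : ∀ P : MvPolynomial (Fin N) k, ∑ t, eval (y t) P = ∑ t, eval (y' t) P) :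
    ∃ s : Equiv.Perm (Fin r), ∀ t, y t = y' (s t) := by
  classical
  apply perm_of_card
  intro v
  obtain ⟨P, hP1, hP2⟩ := exists_sep ((Finset.univ.image y) ∪ (Finset.univ.image y')) v
  have key : ∀ z : Fin r → Fin N → k, (∀ t, z t ∈ (Finset.univ.image y) ∪ (Finset.univ.image y')) →
      ∑ t, eval (z t) P = ((Finset.univ.filter fun t => z t = v).card : k) := by
    intro z hz
    rw [Finset.card_filter, Nat.cast_sum]
    refine Finset.sum_congr rfl fun t _ => ?_
    by_cases hv : z t = v
    · rw [if_pos hv, hv, hP1, Nat.cast_one]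
    · rw [if_neg hv, hP2 _ (hz t) hv, Nat.cast_zero]
  have h1 := key y fun t => Finset.mem_union_left _ (Finset.mem_image_of_mem _ (Finset.mem_univ t))
  have h2 := key y' fun t => Finset.mem_union_right _ (Finset.mem_image_of_mem _ (Finset.mem_univ t))
  rw [h P, h2] at h1
  exact_mod_cast h1.symm

end

end Pool.Agent.N302.SP
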