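import Mathlib
import Pool.Agent.N302.SP.Ent
import Pool.Agent.N302.SP.Same

/-!
# Entire curves in symmetric powers
-/

set_option autoImplicit false

namespace Pool.Agent.N302.SP

open MvPolynomial Pool.Agent.N302.MB

section

variable {r N : ℕ} {f : ℂ → Fin r → Fin N → ℂ}

/-- the norm of a polynomial is entire -/
theorem norm_entire (hf : ∀ P : MvPolynomial (Fin N) ℂ, Differentiable ℂ fun z => ∑ t, eval (f z t) P)
    (P : MvPolynomial (Fin N) ℂ) : Differentiable ℂ fun z => ∏ t, eval (f z t) P := by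
  have h1 := prod_mem_of_psum entA (fun (t : Fin r) (z : ℂ) => eval (f z t) P) (by
    intro j
    have h2 : (∑ t : Fin r, (fun z : ℂ => eval (f z t) P) ^ j) =
        fun z => ∑ t, eval (f z t) (P ^ j) := by
      funext z
      rw [Finset.sum_apply]
      refine Finset.sum_congr rfl fun t _ => ?_
      rw [Pi.pow_apply, map_pow]
    rw [h2]
    exact hf _)
  have h3 : (∏ t : Fin r, fun z : ℂ => eval (f z t) P) = fun z => ∏ t, eval (f z t) P := by
    funext z
    rw [Finset.prod_apply]
  rw [h3] at h1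
  exact h1

/-- A curve which is constant on an uncountable set is constant. -/
theorem const_of_unc (hf : ∀ P : MvPolynomial (Fin N) ℂ, Differentiable ℂ fun z => ∑ t, eval (f z t) P)
    (A : Set ℂ) (hA : ¬ A.Countable) (a : Fin r × Fin N → ℂ) (ha : ∀ z ∈ A, (fun p => f z p.1 p.2) = a)
    (z w : ℂ) : ∃ s : Equiv.Perm (Fin r), ∀ t, f z t = f w (s t) := by
  apply same_of_sums
  have h1 : ∀ (P : MvPolynomial (Fin N) ℂ) (z : ℂ), ∑ t, eval (f z t) P =
      ∑ t : Fin r, eval (fun i => a (t, i)) P := by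
    intro P z
    have h2 := zero_of_uncountable ((hf P).sub_const (∑ t : Fin r, eval (fun i => a (t, i)) P)) A hA
      (by
        intro z hz
        rw [sub_eq_zero]
        refine Finset.sum_congr rfl fun t _ => ?_
        congr 2
        funext i
        exact congrFun (ha z hz) (t, i)) z
    exact sub_eq_zero.1 h2
  intro P
  rw [h1, h1]

end

/-- **Entire curves in the symmetric powers of `M_{0,M+3}` are constant.** -/
theorem ent_M (r M : ℕ) (hr : 1 ≤ r) (hM : bq (2 * r) < M + 2) (f : ℂ → Fin r → Fin (M + 2) → ℂ)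
    (hf : ∀ P : MvPolynomial (Fin (M + 2)) ℂ, Differentiable ℂ fun z => ∑ t, eval (f z t) P)
    (h0 : ∀ z t, f z t 0 = 0) (h1 : ∀ z t, f z t 1 = 1) (hn : ∀ z t, Function.Injective (f z t))
    (z w : ℂ) : ∃ s : Equiv.Perm (Fin r), ∀ t, f z t = f w (s t) := by
  by_contra hcon
  refine coreM (Ω := ℂ) _ isLarge_unc r M hr hM (fun z p => f z p.1 p.2) h0 h1
    (fun z t a b hab h => hab (hn z t h)) (unitRel_ent _ _ ?_ ?_) ?_
  · intro p
    have h2 := norm_entire hf (X p.1.1 - X p.1.2)
    simp only [map_sub, eval_X] at h2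
    have h3 : (fun z => eval (fun p : Fin r × Fin (M + 2) => f z p.1 p.2) (fM ℂ r M p)) =
        fun z => ∏ t, (f z t p.1.1 - f z t p.1.2) := by
      funext z
      rw [eval_fM]
    rw [h3]
    exact h2
  · intro z p
    rw [eval_fM]
    exact Finset.prod_ne_zero_iff.2 fun t _ => sub_ne_zero.2 fun h => p.2 (hn z t h)
  · intro A hA a ha
    exact hcon (const_of_unc hf A hA a ha z w)

/-- **Entire curves in the symmetric powers of very affine varieties.** -/
theorem ent_T (r N : ℕ) {K : Type} [Field K] (κ : K →+* ℂ) (I : Set (MvPolynomial (Fin N) K))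
    (hT : ∀ w : Fin r ⊕ Fin r → Fin N → ℤ, (∀ j, TropIn I (w j)) → (∀ i, ∑ j, w j i = 0) →
      ∀ j i, w j i = 0)
    (f : ℂ → Fin r → Fin N → ℂ)
    (hf : ∀ P : MvPolynomial (Fin N) ℂ, Differentiable ℂ fun z => ∑ t, eval (f z t) P)
    (h0 : ∀ z t i, f z t i ≠ 0) (hI : ∀ z t, ∀ p ∈ I, eval (f z t) (map κ p) = 0)
    (z w : ℂ) : ∃ s : Equiv.Perm (Fin r), ∀ t, f z t = f w (s t) := by
  by_contra hcon
  refine coreT (Ω := ℂ) _ isLarge_unc r N κ I hT (fun z p => f z p.1 p.2) h0 hI
    (unitRel_ent _ _ ?_ ?_) ?_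
  · intro i
    have h2 := norm_entire hf (X i)
    simp only [eval_X] at h2
    have h3 : (fun z => eval (fun p : Fin r × Fin N => f z p.1 p.2) (fT ℂ r N i)) =
        fun z => ∏ t, f z t i := by
      funext z
      rw [eval_fT]
    rw [h3]
    exact h2
  · intro z i
    rw [eval_fT]
    exact Finset.prod_ne_zero_iff.2 fun t _ => h0 z t i
  · intro A hA a ha
    exact hcon (const_of_unc hf A hA a ha z w)

end Pool.Agent.N302.SP
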