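import Mathlib
import Pool.Agent.N302.SP.Ent2
import Pool.Agent.N302.MB.Pts

/-!
# Integral points of symmetric powers
-/

set_option autoImplicit false

namespace Pool.Agent.N302.SP

open MvPolynomial Pool.Agent.N302.MB Pool.Agent.Helper259.AbsHt Pool.Agent.Y734.M

/-- complex numbers which become integral when they are multiplied by a power of the product of the
primes in `S` -/
def SI (S : Finset ℕ) (a : ℂ) : Prop := ∃ m : ℕ, IsIntegral ℤ ((∏ p ∈ S, (p : ℂ)) ^ m * a)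

section

variable {S : Finset ℕ}

theorem isIntegral_D (S : Finset ℕ) : IsIntegral ℤ (∏ p ∈ S, (p : ℂ)) :=
  IsIntegral.prod _ fun p _ => by
    have := isIntegral_algebraMap (R := ℤ) (A := ℂ) (x := (p : ℤ))
    simpa using this

theorem SI.mul {a b : ℂ} (ha : SI S a) (hb : SI S b) : SI S (a * b) := by
  obtain ⟨m, hm⟩ := ha
  obtain ⟨n, hn⟩ := hb
  refine ⟨m + n, ?_⟩
  have : (∏ p ∈ S, (p : ℂ)) ^ (m + n) * (a * b) =
      ((∏ p ∈ S, (p : ℂ)) ^ m * a) * ((∏ p ∈ S, (p : ℂ)) ^ n * b) := by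
    rw [pow_add]
    ring
  rw [this]
  exact hm.mul hn

theorem SI.sub {a b : ℂ} (ha : SI S a) (hb : SI S b) : SI S (a - b) := by
  obtain ⟨m, hm⟩ := ha
  obtain ⟨n, hn⟩ := hb
  refine ⟨m + n, ?_⟩
  have : (∏ p ∈ S, (p : ℂ)) ^ (m + n) * (a - b) =
      (∏ p ∈ S, (p : ℂ)) ^ n * ((∏ p ∈ S, (p : ℂ)) ^ m * a) -
        (∏ p ∈ S, (p : ℂ)) ^ m * ((∏ p ∈ S, (p : ℂ)) ^ n * b) := by
    rw [pow_add]
    ring
  rw [this]
  exact (((isIntegral_D S).pow n).mul hm).sub (((isIntegral_D S).pow m).mul hn)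

theorem SI.one : SI S 1 := ⟨0, by simpa using isIntegral_one⟩

theorem SI.prod {ι : Type} (s : Finset ι) (g : ι → ℂ) (hg : ∀ i ∈ s, SI S (g i)) :
    SI S (∏ i ∈ s, g i) := by
  classical
  induction s using Finset.induction_on with
  | empty =>
    rw [Finset.prod_empty]
    exact SI.one
  | insert a s ha ih =>
    rw [Finset.prod_insert ha]
    exact (hg a (by simp)).mul (ih fun i hi => hg i (by simp [hi]))

theorem D_ne (hS : ∀ p ∈ S, p.Prime) : (∏ p ∈ S, (p : ℂ)) ≠ 0 :=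
  Finset.prod_ne_zero_iff.2 fun p hp => by exact_mod_cast (hS p hp).ne_zero

theorem SI.alg (hS : ∀ p ∈ S, p.Prime) {a : ℂ} (ha : SI S a) : IsAlgebraic ℚ a := by
  obtain ⟨m, hm⟩ := ha
  have h0 := pow_ne_zero m (D_ne hS)
  have h1 : IsAlgebraic ℚ ((∏ p ∈ S, (p : ℂ)) ^ m * a) := (hm.tower_top (A := ℚ)).isAlgebraic
  have h2 : IsAlgebraic ℚ ((∏ p ∈ S, (p : ℂ)) ^ m) :=
    (((isIntegral_D S).pow m).tower_top (A := ℚ)).isAlgebraic
  have h3 := h2.inv.mul h1
  rwa [← mul_assoc, inv_mul_cancel₀ h0, one_mul] at h3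

/-- a number `u` of `L` whose image in `ℂ` is an `S`-unit -/
theorem SU_of {L : Type} [Field L] [NumberField L] (τ : L →+* ℂ) (u : L)
    (h0 : u ≠ 0) (h1 : SI S (τ u)) (h2 : SI S (τ u)⁻¹) : SU S u := by
  obtain ⟨m, hm⟩ := h1
  obtain ⟨n, hn⟩ := h2
  have hD : ∀ k : ℕ, τ ((∏ p ∈ S, (p : L)) ^ k) = (∏ p ∈ S, (p : ℂ)) ^ k := by
    intro k
    rw [map_pow, map_prod]
    simp only [map_natCast]
  have hint : ∀ x : L, IsIntegral ℤ (τ x) → IsIntegral ℤ x := fun x hx =>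
    (isIntegral_algHom_iff τ.toIntAlgHom τ.injective).1 hx
  refine ⟨h0, m + n, hint _ ?_, hint _ ?_⟩
  · rw [map_mul, hD, pow_add, mul_comm ((∏ p ∈ S, (p : ℂ)) ^ m), mul_assoc]
    exact ((isIntegral_D S).pow n).mul hm
  · rw [map_mul, hD, pow_add, mul_assoc, map_inv₀]
    exact ((isIntegral_D S).pow m).mul hn

end

theorem exists_emb : Nonempty (Qbar →+* ℂ) := by
  have : Algebra.IsAlgebraic ℚ Qbar := AlgebraicClosure.isAlgebraic ℚ
  exact ⟨(IsAlgClosed.lift : Qbar →ₐ[ℚ] ℂ).toRingHom⟩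

theorem mem_range_alg (ι : Qbar →+* ℂ) (z : ℂ) (hz : IsAlgebraic ℚ z) : z ∈ ι.range := by
  let _ : Algebra Qbar ℂ := ι.toAlgebra
  have : IsScalarTower ℚ Qbar ℂ := IsScalarTower.of_algebraMap_eq' (Subsingleton.elim _ _)
  have h1 : IsIntegral Qbar z := hz.isIntegral.tower_top
  exact minpoly.mem_range_of_degree_eq_one Qbar z
    (IsAlgClosed.degree_eq_one_of_irreducible _ (minpoly.irreducible h1))

/-- embeddings of number fields factor over the algebraic numbers -/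
theorem factor (ι : Qbar →+* ℂ) {K : Type} [Field K] [NumberField K] (σ : K →+* ℂ) :
    ∃ κ : K →+* Qbar, ∀ a, ι (κ a) = σ a := by
  have h1 : ∀ a, σ a ∈ ι.range := fun a => by
    apply mem_range_alg
    have h2 : IsAlgebraic ℚ a := Algebra.IsAlgebraic.isAlgebraic a
    exact h2.algHom σ.toRatAlgHom
  let e : Qbar ≃+* ι.range := RingEquiv.ofBijective ι.rangeRestrict
    ⟨fun a b h => ι.injective (congrArg Subtype.val h), ι.rangeRestrict_surjective⟩
  refine ⟨e.symm.toRingHom.comp (σ.codRestrict ι.range h1), fun a => ?_⟩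
  have h2 : e (e.symm (σ.codRestrict ι.range h1 a)) = σ.codRestrict ι.range h1 a :=
    e.apply_symm_apply _
  exact congrArg Subtype.val h2

/-- The infinite sets are large. -/
theorem isLarge_inf {P : Type} [Infinite P] : IsLarge fun A : Set P => A.Infinite where
  univ := Set.infinite_univ
  nonempty A hA := hA.nonempty
  split A B C hA hs := by
    by_contra h
    push Not at h
    apply hA
    refine (h.1.union h.2).subset fun z hz => ?_
    exact (hs hz).imp (fun h => ⟨hz, h⟩) fun h => ⟨hz, h⟩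

/-- **The unit equation.** -/
theorem unitRel_num {P σ ι : Type} [Fintype ι] (y : P → σ → Qbar) (f : ι → MvPolynomial σ Qbar)
    (Γ : Subgroup Qbarˣ) (hΓ : Γ.FG)
    (hf : ∀ z i, ∃ u ∈ Γ, ((u : Qbarˣ) : Qbar) = eval (y z) (f i)) :
    UnitRel (fun A : Set P => A.Infinite) y f := by
  classical
  intro A hA Φ hΦ h0
  have hne : Nonempty Φ.support := by
    obtain ⟨w, hw⟩ := (support_nonempty (p := Φ)).2 hΦ
    exact ⟨⟨w, hw⟩⟩
  let c : Φ.support → Qbarˣ := fun w => Units.mk0 (coeff w.1 Φ) (mem_support_iff.1 w.2)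
  obtain ⟨R, hR, hR2⟩ := partner Γ hΓ c
  have h1 : ∀ z : A, ∃ t : Φ.support × Φ.support × R, t.1 ≠ t.2.1 ∧
      ∏ i, (eval (y z.1) (f i)) ^ (t.1.1 i) = t.2.2.1 * ∏ i, (eval (y z.1) (f i)) ^ (t.2.1.1 i) := by
    intro z
    choose u hu1 hu2 using hf z.1
    have h2 : ∀ w : ι →₀ ℕ, ((∏ i, u i ^ w i : Qbarˣ) : Qbar) =
        ∏ i, (eval (y z.1) (f i)) ^ w i := by
      intro w
      rw [Units.coe_prod]
      refine Finset.prod_congr rfl fun i _ => ?_
      rw [Units.val_pow_eq_pow_val, hu2]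
    obtain ⟨w, w', hww, hr⟩ := hR2 (fun w => ∏ i, u i ^ w.1 i)
      (fun w => Subgroup.prod_mem _ fun i _ => Subgroup.pow_mem _ (hu1 i) _) (by
        have h4 := h0 z.1 z.2
        rw [eval_eq'] at h4
        rw [← h4, ← Finset.sum_coe_sort Φ.support]
        refine Finset.sum_congr rfl fun w _ => ?_
        rw [h2]
        rfl)
    refine ⟨(w, w', ⟨_, hr⟩), hww, ?_⟩
    show _ = ((_ : Qbar) / _) * _
    rw [← h2, ← h2, div_mul_cancel₀ _ (Units.ne_zero _)]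
  choose t ht1 ht2 using h1
  have hZi : Infinite A := hA.to_subtype
  have hRf : Finite R := hR
  obtain ⟨⟨w, w', ρ⟩, hinf⟩ := Finite.exists_infinite_fiber t
  obtain ⟨z0⟩ := hinf.nonempty
  have hww : w ≠ w' := by
    have := ht1 z0.1
    have h3 : t z0.1 = (w, w', ρ) := z0.2
    rwa [h3] at this
  refine ⟨w.1, w.2, w'.1, w'.2, fun h => hww (Subtype.ext h), ρ.1,
    Subtype.val '' (t ⁻¹' {(w, w', ρ)}), ?_, ?_, ?_⟩
  · rintro _ ⟨z, -, rfl⟩
    exact z.2
  · exact (Set.infinite_coe_iff.1 hinf).image Subtype.val_injective.injOn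
  · rintro _ ⟨z, hz, rfl⟩
    have h3 : t z = (w, w', ρ) := hz
    have h4 := ht2 z
    rw [h3] at h4
    exact h4

/-- The tuple `y` of points of affine space is defined over `L`. -/
def Rat {r N : ℕ} {L : Type} [Field L] (τ : L →+* ℂ) (y : Fin r → Fin N → ℂ) : Prop :=
  ∀ P : MvPolynomial (Fin N) ℤ, ∃ a : L, τ a = ∑ t, aeval (y t) P

/-- the norms -/
theorem norm_rat {r N : ℕ} {L : Type} [Field L] [CharZero L] (τ : L →+* ℂ) (y : Fin r → Fin N → ℂ)
    (hy : Rat τ y) (P : MvPolynomial (Fin N) ℤ) : ∃ a : L, τ a = ∏ t, aeval (y t) P := by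
  have h1 := prod_mem_of_psum τ.toRatAlgHom.range (fun t => aeval (y t) P) (by
    intro j
    obtain ⟨a, ha⟩ := hy (P ^ j)
    refine ⟨a, ?_⟩
    show τ a = _
    rw [ha]
    refine Finset.sum_congr rfl fun t _ => ?_
    rw [map_pow])
  obtain ⟨a, ha⟩ := h1
  exact ⟨a, ha⟩

/-- The norms of polynomials with `S`-unit values are in a finitely generated group. -/
theorem norm_group (ι : Qbar →+* ℂ) (L : Type) [Field L] [NumberField L] (τ : L →+* ℂ)
    (S : Finset ℕ) (hS : ∀ p ∈ S, p.Prime) : ∃ Γ : Subgroup Qbarˣ, Γ.FG ∧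
      ∀ (r N : ℕ) (y : Fin r → Fin N → ℂ), Rat τ y → ∀ P : MvPolynomial (Fin N) ℤ,
        (∀ t, aeval (y t) P ≠ 0) → (∀ t, SI S (aeval (y t) P)) → (∀ t, SI S (aeval (y t) P)⁻¹) →
          ∃ u ∈ Γ, ι ((u : Qbarˣ) : Qbar) = ∏ t, aeval (y t) P := by
  obtain ⟨κ, hκ⟩ := factor ι τ
  obtain ⟨Γ, hΓ, hΓS⟩ := exists_group L S hS
  refine ⟨Γ.map (Units.map κ.toMonoidHom), fg_map _ hΓ _, ?_⟩
  intro r N y hy P h0 h1 h2
  obtain ⟨a, ha⟩ := norm_rat τ y hy P
  have ha0 : a ≠ 0 := by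
    rintro rfl
    rw [map_zero] at ha
    exact Finset.prod_ne_zero_iff.2 (fun t _ => h0 t) ha.symm
  have hSU : SU S a := by
    refine SU_of τ a ha0 ?_ ?_
    · rw [ha]
      exact SI.prod _ _ fun t _ => h1 t
    · rw [ha, ← Finset.prod_inv_distrib]
      exact SI.prod _ _ fun t _ => h2 t
  refine ⟨Units.map κ.toMonoidHom (Units.mk0 a ha0), Subgroup.mem_map_of_mem _ (hΓS _ hSU), ?_⟩
  rw [← ha, ← hκ]
  rfl

/-- **Integral points of the symmetric powers of `M_{0,M+3}`.** -/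
theorem ar_M (r M : ℕ) (hr : 1 ≤ r) (hM : bq (2 * r) < M + 2) (L : Type) [Field L] [NumberField L]
    (τ : L →+* ℂ) (S : Finset ℕ) (hS : ∀ p ∈ S, p.Prime) :
    {y : Fin r → Fin (M + 2) → ℂ | (∀ t, y t 0 = 0) ∧ (∀ t, y t 1 = 1) ∧
      (∀ t, Function.Injective (y t)) ∧ Rat τ y ∧ (∀ t a, SI S (y t a)) ∧
        ∀ t a b, a ≠ b → SI S (y t a - y t b)⁻¹}.Finite := by
  classical
  by_contra hinf
  set Y := {y : Fin r → Fin (M + 2) → ℂ | (∀ t, y t 0 = 0) ∧ (∀ t, y t 1 = 1) ∧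
      (∀ t, Function.Injective (y t)) ∧ Rat τ y ∧ (∀ t a, SI S (y t a)) ∧
        ∀ t a b, a ≠ b → SI S (y t a - y t b)⁻¹} with hY
  have hYi : Infinite Y := Set.infinite_coe_iff.2 hinf
  obtain ⟨ι⟩ := exists_emb
  obtain ⟨Γ, hΓ, hΓ2⟩ := norm_group ι L τ S hS
  have hex : ∀ (z : Y) (p : Fin r × Fin (M + 2)), ∃ a, ι a = z.1 p.1 p.2 := fun z p =>
    mem_range_alg ι _ ((z.2.2.2.2.2.1 p.1 p.2).alg hS)
  choose q hq using hex
  have hqe : ∀ (z : Y) t a b, ι (q z (t, a) - q z (t, b)) = z.1 t a - z.1 t b := by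
    intro z t a b
    rw [map_sub, hq, hq]
  refine coreM (Ω := Qbar) _ (isLarge_inf (P := Y)) r M hr hM q ?_ ?_ ?_
    (unitRel_num q _ Γ hΓ ?_) ?_
  · intro z t
    apply ι.injective
    rw [hq, map_zero]
    exact z.2.1 t
  · intro z t
    apply ι.injective
    rw [hq, map_one]
    exact z.2.2.1 t
  · intro z t a b hab h
    apply hab
    apply z.2.2.2.1 t
    rw [← hq z (t, a), ← hq z (t, b), h]
  · intro z p
    obtain ⟨u, hu, hu2⟩ := hΓ2 r (M + 2) z.1 z.2.2.2.2.1 (X p.1.1 - X p.1.2) (by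
        intro t
        rw [map_sub, aeval_X, aeval_X, sub_ne_zero]
        exact fun h => p.2 (z.2.2.2.1 t h)) (by
        intro t
        rw [map_sub, aeval_X, aeval_X]
        exact (z.2.2.2.2.2.1 t _).sub (z.2.2.2.2.2.1 t _)) (by
        intro t
        rw [map_sub, aeval_X, aeval_X]
        exact z.2.2.2.2.2.2 t _ _ p.2)
    refine ⟨u, hu, ?_⟩
    apply ι.injective
    rw [hu2, eval_fM, map_prod]
    refine Finset.prod_congr rfl fun t _ => ?_
    rw [map_sub, aeval_X, aeval_X, hqe]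
  · intro A hA a ha
    obtain ⟨z, hz, w, hw, hzw⟩ := hA.nontrivial
    apply hzw
    apply Subtype.ext
    funext t b
    rw [← hq z (t, b), ← hq w (t, b), ha z hz, ha w hw]

/-- **Integral points of the symmetric powers of very affine varieties.** -/
theorem ar_T (r N : ℕ) {K : Type} [Field K] [NumberField K] (σ : K →+* ℂ)
    (I : Set (MvPolynomial (Fin N) K))
    (hT : ∀ w : Fin r ⊕ Fin r → Fin N → ℤ, (∀ j, TropIn I (w j)) → (∀ i, ∑ j, w j i = 0) →
      ∀ j i, w j i = 0)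
    (L : Type) [Field L] [NumberField L]
    (τ : L →+* ℂ) (S : Finset ℕ) (hS : ∀ p ∈ S, p.Prime) :
    {y : Fin r → Fin N → ℂ | (∀ t i, y t i ≠ 0) ∧ (∀ t, ∀ p ∈ I, eval (y t) (map σ p) = 0) ∧
      Rat τ y ∧ (∀ t a, SI S (y t a)) ∧ ∀ t a, SI S (y t a)⁻¹}.Finite := by
  classical
  by_contra hinf
  set Y := {y : Fin r → Fin N → ℂ | (∀ t i, y t i ≠ 0) ∧ (∀ t, ∀ p ∈ I, eval (y t) (map σ p) = 0) ∧
      Rat τ y ∧ (∀ t a, SI S (y t a)) ∧ ∀ t a, SI S (y t a)⁻¹} with hY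
  have hYi : Infinite Y := Set.infinite_coe_iff.2 hinf
  obtain ⟨ι⟩ := exists_emb
  obtain ⟨Γ, hΓ, hΓ2⟩ := norm_group ι L τ S hS
  obtain ⟨κ, hκ⟩ := factor ι σ
  have hex : ∀ (z : Y) (p : Fin r × Fin N), ∃ a, ι a = z.1 p.1 p.2 := fun z p =>
    mem_range_alg ι _ ((z.2.2.2.2.1 p.1 p.2).alg hS)
  choose q hq using hex
  refine coreT (Ω := Qbar) _ (isLarge_inf (P := Y)) r N κ I hT q ?_ ?_
    (unitRel_num q _ Γ hΓ ?_) ?_
  · intro z t i h
    apply z.2.1 t i
    rw [← hq z (t, i), h, map_zero]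
  · intro z t p hp
    apply ι.injective
    rw [map_zero, ← z.2.2.1 t p hp, eval_map, eval_map, eval₂_comp_left]
    have e1 : ι.comp κ = σ := RingHom.ext hκ
    have e2 : (ι ∘ fun i => q z (t, i)) = z.1 t := funext fun i => hq z (t, i)
    rw [e1, e2]
  · intro z i
    obtain ⟨u, hu, hu2⟩ := hΓ2 r N z.1 z.2.2.2.1 (X i) (by
        intro t
        rw [aeval_X]
        exact z.2.1 t i) (by
        intro t
        rw [aeval_X]
        exact z.2.2.2.2.1 t _) (by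
        intro t
        rw [aeval_X]
        exact z.2.2.2.2.2 t _)
    refine ⟨u, hu, ?_⟩
    apply ι.injective
    rw [hu2, eval_fT, map_prod]
    refine Finset.prod_congr rfl fun t _ => ?_
    rw [aeval_X, hq]
  · intro A hA a ha
    obtain ⟨z, hz, w, hw, hzw⟩ := hA.nontrivial
    apply hzw
    apply Subtype.ext
    funext t b
    rw [← hq z (t, b), ← hq w (t, b), ha z hz, ha w hw]

end Pool.Agent.N302.SP
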