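import Mathlib

/-!
# Symmetric functions of the roots of a polynomial
-/

set_option autoImplicit false

namespace Pool.Agent.N302.SP

open MvPolynomial

section

variable {R B : Type} [CommRing R] [CommRing B] [Algebra B R] {r : ℕ} (x : Fin r → R)

/-- the power sums -/
theorem psum_in (he : ∀ i, ∃ e : B, algebraMap B R e = aeval x (esymm (Fin r) ℤ i)) (j : ℕ) :
    ∃ s : B, algebraMap B R s = ∑ t, x t ^ j := by
  have hps : ∀ j, aeval x (psum (Fin r) ℤ j) = ∑ t, x t ^ j := by
    intro j
    rw [psum, map_sum]
    simp only [map_pow, aeval_X]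
  induction j using Nat.strong_induction_on with
  | _ j ih =>
    by_cases hj : j = 0
    · refine ⟨(r : B), ?_⟩
      subst hj
      simp
    · rw [← hps, psum_eq_mul_esymm_sub_sum (Fin r) ℤ j (by omega)]
      choose e he' using he
      have h1 : ∀ a : ℕ × ℕ, a ∈ (Finset.HasAntidiagonal.antidiagonal j).filter (fun a => a.1 ∈ Set.Ioo 0 j) →
          ∃ s : B, algebraMap B R s =
            aeval x ((-1) ^ a.fst * esymm (Fin r) ℤ a.1 * psum (Fin r) ℤ a.2) := by
        intro a ha
        rw [Finset.mem_filter, Finset.HasAntidiagonal.mem_antidiagonal] at ha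
        obtain ⟨h2, h3, h4⟩ := ha
        obtain ⟨s, hs⟩ := ih a.2 (by omega)
        refine ⟨(-1) ^ a.1 * e a.1 * s, ?_⟩
        rw [map_mul, map_mul, map_pow, map_neg, map_one, he', hs, map_mul, map_mul, map_pow, map_neg,
          map_one, hps]
      choose! s hs using h1
      refine ⟨(-1) ^ (j + 1) * (j : B) * e j -
        ∑ a ∈ (Finset.HasAntidiagonal.antidiagonal j).filter (fun a => a.1 ∈ Set.Ioo 0 j), s a, ?_⟩
      rw [map_sub, map_mul, map_mul, map_pow, map_neg, map_one, map_natCast, he', map_sum, map_sub,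
        map_mul, map_mul, map_pow, map_neg, map_one, map_natCast, map_sum]
      congr 1
      exact Finset.sum_congr rfl fun a ha => hs a ha

/-- sums of polynomials in the roots -/
theorem sum_in (he : ∀ i, ∃ e : B, algebraMap B R e = aeval x (esymm (Fin r) ℤ i))
    (Q : Polynomial B) : ∃ s : B, algebraMap B R s = ∑ t, Polynomial.aeval (x t) Q := by
  induction Q using Polynomial.induction_on' with
  | add p q hp hq =>
    obtain ⟨s, hs⟩ := hp
    obtain ⟨s', hs'⟩ := hq
    refine ⟨s + s', ?_⟩
    rw [map_add, hs, hs', ← Finset.sum_add_distrib]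
    exact Finset.sum_congr rfl fun t _ => (map_add _ _ _).symm
  | monomial n a =>
    obtain ⟨s, hs⟩ := psum_in x he n
    refine ⟨a * s, ?_⟩
    rw [map_mul, hs, Finset.mul_sum]
    refine Finset.sum_congr rfl fun t _ => ?_
    rw [Polynomial.aeval_monomial]

end

/-- the roots of a monic polynomial over the complex numbers -/
theorem exists_roots (p : Polynomial ℂ) (hp : p.Monic) {r : ℕ} (hr : p.natDegree = r) :
    ∃ x : Fin r → ℂ, p = ∏ t, (Polynomial.X - Polynomial.C (x t)) := by
  have hs : p.Splits := IsAlgClosed.splits p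
  have h1 : p = (p.roots.map fun a => Polynomial.X - Polynomial.C a).prod :=
    hs.eq_prod_roots_of_monic hp
  have h2 : p.roots.card = r := by
    rw [← hr]
    exact hs.natDegree_eq_card_roots.symm
  obtain ⟨l, hl⟩ : ∃ l : List ℂ, (l : Multiset ℂ) = p.roots := Quot.exists_rep p.roots
  have h3 : l.length = r := by
    rw [← h2, ← hl]
    rfl
  subst h3
  refine ⟨fun t => l.get t, ?_⟩
  rw [h1, ← hl]
  have h4 : ∏ t, (Polynomial.X - Polynomial.C (l.get t)) =
      (List.ofFn fun t => Polynomial.X - Polynomial.C (l.get t)).prod := (List.prod_ofFn).symm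
  have h5 := List.ofFn_comp' l.get fun a : ℂ => Polynomial.X - Polynomial.C a
  rw [List.ofFn_get] at h5
  rw [h4, h5]
  rfl

/-- the elementary symmetric functions of the roots are the coefficients -/
theorem esymm_roots {r : ℕ} (p : Polynomial ℂ) (x : Fin r → ℂ)
    (h : p = ∏ t, (Polynomial.X - Polynomial.C (x t))) (i : ℕ) :
    aeval x (esymm (Fin r) ℤ i) = if i ≤ r then (-1) ^ i * p.coeff (r - i) else 0 := by
  rw [aeval_esymm_eq_multiset_esymm]
  have hc : Multiset.card (Finset.univ.val.map x) = r := by
    rw [Multiset.card_map]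
    exact Finset.card_fin r
  split_ifs with hi
  · have h1 : p = ((Finset.univ.val.map x).map fun a => Polynomial.X - Polynomial.C a).prod := by
      rw [h, Multiset.map_map]
      rfl
    have h2 := Multiset.prod_X_sub_C_coeff (Finset.univ.val.map x) (k := r - i) (by rw [hc]; omega)
    rw [← h1, hc, show r - (r - i) = i by omega] at h2
    rw [h2, ← mul_assoc, ← mul_pow, neg_one_mul, neg_neg, one_pow, one_mul]
  · rw [Multiset.esymm, Multiset.powersetCard_eq_empty]
    · simp
    · rw [hc]
      omega

end Pool.Agent.N302.SP
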