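import Mathlib
import Pool.Agent.N302.SP.Sym
import Pool.Agent.N302.MB.Sharp2

/-!
# The dihedral family of points of symmetric powers
-/

set_option autoImplicit false

namespace Pool.Agent.N302.SP

open Pool.Agent.N302.MB Pool.Agent.Y734.M Polynomial

section

variable {R : Type} [CommRing R] {N : ℕ}

/-- the affine coordinates of the points `vec`, where `xi` is the inverse of `x` -/
def cz (N : ℕ) (ζ x xi : R) : Idx N → R
  | none => 0
  | some none => 0
  | some (some (Sum.inl i)) => ζ ^ (i : ℕ)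
  | some (some (Sum.inr (i, true))) => ζ ^ (2 * (i : ℕ)) * x
  | some (some (Sum.inr (i, false))) => ζ ^ (2 * (i : ℕ)) * xi

/-- the inverses of the second coordinates -/
def wz (N : ℕ) (xi : R) : Idx N → R
  | some (some (Sum.inr (_, false))) => xi
  | _ => 1

theorem cz_map {R' : Type} [CommRing R'] (φ : R →+* R') (ζ x xi : R) (a : Idx N) :
    φ (cz N ζ x xi a) = cz N (φ ζ) (φ x) (φ xi) a := by
  rcases a with _ | _ | i | ⟨i, _ | _⟩ <;> simp [cz]

theorem cz_eq (ζ x xi : R) (h : x * xi = 1) (a : Idx N) (ha : a ≠ none) :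
    cz N ζ x xi a = vec N ζ x a 0 * wz N xi a ∧ vec N ζ x a 1 * wz N xi a = 1 := by
  rcases a with _ | _ | i | ⟨i, _ | _⟩
  · exact absurd rfl ha
  · simp [cz, wz, vec]
  · simp [cz, wz, vec]
  · simp [cz, wz, vec, h]
  · simp [cz, wz, vec]

theorem cz_sub (ζ x xi : R) (h : x * xi = 1) (a b : Idx N) (ha : a ≠ none) (hb : b ≠ none) :
    cz N ζ x xi a - cz N ζ x xi b = wz N xi a * wz N xi b * dt (vec N ζ x a) (vec N ζ x b) := by
  obtain ⟨h1, h2⟩ := cz_eq ζ x xi h a ha
  obtain ⟨h3, h4⟩ := cz_eq ζ x xi h b hb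
  rw [h1, h3]
  unfold dt
  linear_combination (-(vec N ζ x a 0 * wz N xi a)) * h4 + vec N ζ x b 0 * wz N xi b * h2

end

/-- **The power sums of the family.** -/
theorem neg_core {Z B : Type} [CommRing B] (ev : Z → (B →+* ℂ)) {N M : ℕ} (hN : 1 ≤ N)
    (u ui ζ : B) (hu : u * ui = 1) (x : Z → Fin (N + 1) → ℂ)
    (hx : ∀ z, ((X ^ (N + 1) - (C u * X ^ N + X + C u) : B[X]).map (ev z)) =
      ∏ t, (X - C (x z t))) (g : Fin M → Idx N) (P : MvPolynomial (Fin M) B) :
    ∃ s : B, ∀ z, ev z s =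
      ∑ t, MvPolynomial.eval (fun a => cz N (ev z ζ) (x z t) (x z t)⁻¹ (g a))
        (MvPolynomial.map (ev z) P) := by
  let _ : Algebra B (Z → ℂ) := (RingHom.pi ev).toAlgebra
  have halg : ∀ (s : B) (z : Z), algebraMap B (Z → ℂ) s z = ev z s := fun s z => rfl
  have hroot : ∀ z t, x z t ^ (N + 1) - (ev z u * x z t ^ N + x z t + ev z u) = 0 := by
    intro z t
    have h1 := congrArg (Polynomial.eval (x z t)) (hx z)
    rw [Polynomial.eval_prod, Finset.prod_eq_zero (Finset.mem_univ t) (by simp)] at h1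
    simpa using h1
  have hue : ∀ z, ev z u * ev z ui = 1 := fun z => by rw [← map_mul, hu, map_one]
  have hx0 : ∀ z t, x z t ≠ 0 := by
    intro z t h
    have h1 := hroot z t
    rw [h, zero_pow (by omega), zero_pow (by omega)] at h1
    have h2 : ev z u = 0 := by linear_combination -h1
    have h3 := hue z
    rw [h2, zero_mul] at h3
    exact zero_ne_one h3
  have hinv : ∀ z t, (x z t)⁻¹ = ev z ui * (x z t ^ N - ev z u * x z t ^ (N - 1) - 1) := by
    intro z t
    rw [inv_eq_iff_eq_inv, eq_comm, inv_eq_of_mul_eq_one_left]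
    obtain ⟨M, rfl⟩ : ∃ M, N = M + 1 := ⟨N - 1, by omega⟩
    have h1 := hroot z t
    rw [Nat.add_sub_cancel]
    linear_combination (ev z ui) * h1 + hue z
  let Q : B[X] := MvPolynomial.aeval
    (fun a => cz N (C ζ) X (C ui * (X ^ N - C u * X ^ (N - 1) - 1)) (g a)) P
  obtain ⟨s, hs⟩ := sum_in (R := Z → ℂ) (fun t z => x z t) (by
    intro i
    refine ⟨if i ≤ N + 1 then (-1) ^ i *
      (X ^ (N + 1) - (C u * X ^ N + X + C u) : B[X]).coeff (N + 1 - i) else 0, ?_⟩
    funext z
    rw [halg]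
    have h1 := esymm_roots _ (x z) (hx z) i
    have h2 : MvPolynomial.aeval (fun t z => x z t) (MvPolynomial.esymm (Fin (N + 1)) ℤ i) z =
        MvPolynomial.aeval (x z) (MvPolynomial.esymm (Fin (N + 1)) ℤ i) := by
      have h3 := MvPolynomial.comp_aeval_apply (fun (t : Fin (N + 1)) (z : Z) => x z t)
        (Pi.evalAlgHom ℤ (fun _ : Z => ℂ) z) (MvPolynomial.esymm (Fin (N + 1)) ℤ i)
      exact h3
    refine Eq.trans ?_ h2.symm
    rw [h1, coeff_map]
    split_ifs
    · rw [map_mul, map_pow, map_neg, map_one]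
    · rw [map_zero]) Q
  refine ⟨s, fun z => ?_⟩
  have h4 := congrFun hs z
  rw [halg] at h4
  rw [h4, Finset.sum_apply]
  refine Finset.sum_congr rfl fun t _ => ?_
  have h5 : Polynomial.aeval (fun z => x z t) Q z = Polynomial.eval (x z t) (Q.map (ev z)) := by
    rw [Polynomial.eval_map, Polynomial.aeval_def]
    have h6 := Polynomial.hom_eval₂ Q (algebraMap B (Z → ℂ)) (Pi.evalRingHom (fun _ : Z => ℂ) z)
      (fun z => x z t)
    exact h6
  rw [h5, Polynomial.eval_map]
  have h6 : Polynomial.eval₂ (ev z) (x z t) Q =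
      MvPolynomial.eval₂ (ev z) (fun a => Polynomial.eval₂ (ev z) (x z t)
        (cz N (C ζ) X (C ui * (X ^ N - C u * X ^ (N - 1) - 1)) (g a))) P := by
    have h7 := MvPolynomial.eval₂_comp_left (Polynomial.eval₂RingHom (ev z) (x z t))
      (algebraMap B B[X])
      (fun a => cz N (C ζ) X (C ui * (X ^ N - C u * X ^ (N - 1) - 1)) (g a)) P
    have h8 : (Polynomial.eval₂RingHom (ev z) (x z t)).comp (algebraMap B B[X]) = ev z := by
      ext b
      simp
    rw [h8] at h7
    exact h7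
  rw [h6, MvPolynomial.eval_map]
  congr 1
  funext a
  have h9 := cz_map (Polynomial.eval₂RingHom (ev z) (x z t)) (C ζ) X
    (C ui * (X ^ N - C u * X ^ (N - 1) - 1)) (g a)
  simp only [Polynomial.coe_eval₂RingHom, Polynomial.eval₂_C, Polynomial.eval₂_X,
    Polynomial.eval₂_mul, Polynomial.eval₂_sub, Polynomial.eval₂_pow, Polynomial.eval₂_one] at h9
  rw [h9, hinv]

end Pool.Agent.N302.SP
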