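import Mathlib
import Pool.Agent.N302.SP.Neg
import Pool.Agent.N302.SP.Ar

/-!
# Entire curves and integral points in `Sym^r (M_{0,n})`, `n ≤ 4 r - 2`
-/

set_option autoImplicit false

namespace Pool.Agent.N302.SP

open Pool.Agent.N302.MB Pool.Agent.Y734.M Polynomial

theorem hreg_of {O : Type} [CommRing O] [IsDomain O] {ζ : O} {N : ℕ}
    (h : IsPrimitiveRoot ζ (2 * N)) (i : ℕ) (hi : 0 < i) (hi' : i < 2 * N) (a : O)
    (ha : (1 - ζ ^ i) * a = 0) : a = 0 := by
  rcases mul_eq_zero.1 ha with h1 | h1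
  · exact absurd (sub_eq_zero.1 h1).symm (h.pow_ne_one_of_pos_of_lt (by omega) hi')
  · exact h1

section

variable {N : ℕ} {ζ x u : ℂ}

/-- the roots are not zero -/
theorem root_ne (hN : 1 ≤ N) (hu : u ≠ 0) (hx : x ^ (N + 1) - u * x ^ N - x - u = 0) : x ≠ 0 := by
  intro h
  rw [h, zero_pow (by omega), zero_pow (by omega)] at hx
  apply hu
  linear_combination -hx

/-- the coordinates are distinct -/
theorem cz_ne (hN : 1 ≤ N) (hζ : IsPrimitiveRoot ζ (2 * N)) (hu : u ≠ 0)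
    (hx : x ^ (N + 1) - u * x ^ N - x - u = 0) (a b : Idx N) (ha : a ≠ none) (hb : b ≠ none)
    (hab : a ≠ b) : cz N ζ x x⁻¹ a ≠ cz N ζ x x⁻¹ b := by
  have hx0 := root_ne hN hu hx
  have hg : ∀ c : ℂ, c ≠ 0 → Gd (1 : ℂ) c := fun c hc =>
    ⟨0, c⁻¹, by rw [pow_zero, mul_inv_cancel₀ hc]⟩
  obtain ⟨m, c, hc⟩ := gd_dt (D := (1 : ℂ)) hζ.pow_eq_one hN
    (hg _ (by exact_mod_cast (show 2 * N ≠ 0 by omega))) (hg _ two_ne_zero) (hreg_of hζ)
    (hg _ hu) hx a b hab
  have hd : dt (vec N ζ x a) (vec N ζ x b) ≠ 0 := by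
    intro h
    rw [h, zero_mul, one_pow] at hc
    exact one_ne_zero hc
  have hw : ∀ a : Idx N, wz N x⁻¹ a ≠ 0 := by
    rintro (_ | _ | i | ⟨i, _ | _⟩)
    · exact one_ne_zero
    · exact one_ne_zero
    · exact one_ne_zero
    · exact inv_ne_zero hx0
    · exact one_ne_zero
  rw [← sub_ne_zero, cz_sub ζ x x⁻¹ (mul_inv_cancel₀ hx0) a b ha hb]
  exact mul_ne_zero (mul_ne_zero (hw a) (hw b)) hd

end

/-- the polynomial -/
noncomputable def pol {B : Type} [CommRing B] (N : ℕ) (u : B) : B[X] :=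
  X ^ (N + 1) - (C u * X ^ N + X + C u)

theorem pol_map {B B' : Type} [CommRing B] [CommRing B'] (φ : B →+* B') (N : ℕ) (u : B) :
    (pol N u).map φ = pol N (φ u) := by
  simp [pol]

theorem pol_deg {N : ℕ} (hN : 1 ≤ N) (u : ℂ) :
    (C u * X ^ N + X + C u : ℂ[X]).degree < ((N + 1 : ℕ) : WithBot ℕ) := by
  refine (degree_add_le _ _).trans_lt (max_lt ((degree_add_le _ _).trans_lt (max_lt ?_ ?_)) ?_)
  · refine (degree_C_mul_X_pow_le _ _).trans_lt ?_
    exact_mod_cast Nat.lt_succ_self N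
  · rw [degree_X]
    exact_mod_cast (show 1 < N + 1 by omega)
  · refine degree_C_le.trans_lt ?_
    exact_mod_cast (show 0 < N + 1 by omega)

theorem exists_rt {N : ℕ} (hN : 1 ≤ N) (u : ℂ) :
    ∃ x : Fin (N + 1) → ℂ, pol N u = ∏ t, (X - C (x t)) := by
  refine exists_roots _ (monic_X_pow_sub ?_) ?_
  · exact pol_deg hN u
  · apply natDegree_eq_of_degree_eq_some
    show (X ^ (N + 1) - (C u * X ^ N + X + C u) : ℂ[X]).degree = _
    rw [degree_sub_eq_left_of_degree_lt] <;> rw [degree_X_pow]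
    exact pol_deg hN u

theorem rt_eq {N : ℕ} {u : ℂ} {x : Fin (N + 1) → ℂ} (h : pol N u = ∏ t, (X - C (x t)))
    (t : Fin (N + 1)) : (x t) ^ (N + 1) - u * (x t) ^ N - x t - u = 0 := by
  have h1 := congrArg (Polynomial.eval (x t)) h
  rw [Polynomial.eval_prod, Finset.prod_eq_zero (Finset.mem_univ t) (by simp)] at h1
  simp only [pol, eval_sub, eval_add, eval_mul, eval_pow, eval_X, eval_C] at h1
  linear_combination h1

/-- the sum of the roots -/
theorem rt_sum {N : ℕ} (hN : 1 ≤ N) {u : ℂ} {x : Fin (N + 1) → ℂ}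
    (h : pol N u = ∏ t, (X - C (x t))) : ∑ t, x t = u + if N = 1 then 1 else 0 := by
  have h1 := esymm_roots _ x h 1
  rw [if_pos (by omega)] at h1
  have h2 : MvPolynomial.aeval x (MvPolynomial.esymm (Fin (N + 1)) ℤ 1) = ∑ t, x t := by
    rw [MvPolynomial.esymm_one, map_sum]
    simp only [MvPolynomial.aeval_X]
  rw [← h2, h1, Nat.add_sub_cancel, pol]
  simp only [coeff_sub, coeff_add, coeff_C_mul, coeff_X_pow, coeff_X, coeff_C]
  rw [if_neg (by omega), if_neg (show ¬ N = 0 by omega)]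
  by_cases hN1 : N = 1
  · subst hN1
    simp
  · rw [if_neg (show ¬ 1 = N by omega), if_neg hN1]
    simp

section

variable {N M : ℕ}

/-- the coordinates of the points -/
noncomputable def pt (N M : ℕ) (f : Fin (M + 3) → Idx N) (ζ x : ℂ) (a : Fin (M + 2)) : ℂ :=
  cz N ζ x x⁻¹ (f a.succ)

theorem pt_inj (hN : 1 ≤ N) {f : Fin (M + 3) → Idx N} (hf : Function.Injective f)
    (f0 : f 0 = none) {ζ x u : ℂ} (hζ : IsPrimitiveRoot ζ (2 * N)) (hu : u ≠ 0)
    (hx : x ^ (N + 1) - u * x ^ N - x - u = 0) : Function.Injective (pt N M f ζ x) := by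
  intro a b hab
  by_contra hne
  have hnn : ∀ a : Fin (M + 2), f a.succ ≠ none := by
    intro a h
    rw [← f0] at h
    exact Fin.succ_ne_zero a (hf h)
  exact cz_ne hN hζ hu hx _ _ (hnn a) (hnn b)
    (fun h => hne (Fin.succ_injective _ (hf h))) hab

/-- **A nonconstant entire curve.** -/
theorem neg_ent (hN : 1 ≤ N) (hM : 1 ≤ M) (hMN : M + 1 ≤ 4 * N) :
    ∃ f : ℂ → Fin (N + 1) → Fin (M + 2) → ℂ,
      (∀ P : MvPolynomial (Fin (M + 2)) ℂ, Differentiable ℂ fun z =>
        ∑ t, MvPolynomial.eval (f z t) P) ∧ (∀ z t, f z t 0 = 0) ∧ (∀ z t, f z t 1 = 1) ∧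
      (∀ z t, Function.Injective (f z t)) ∧
      ¬ ∃ s : Equiv.Perm (Fin (N + 1)), ∀ t, f 0 t = f 1 (s t) := by
  obtain ⟨f, hf, f0, f1, f2, f3⟩ := exists_enum N hN (M + 3) (by omega) (by omega)
  have hζ : IsPrimitiveRoot (Complex.exp (2 * Real.pi * Complex.I / ((2 * N : ℕ) : ℂ))) (2 * N) :=
    Complex.isPrimitiveRoot_exp (2 * N) (by omega)
  set ζ : ℂ := Complex.exp (2 * Real.pi * Complex.I / ((2 * N : ℕ) : ℂ)) with hζd
  choose x hx using fun z : ℂ => exists_rt hN (Complex.exp z)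
  have hp1 : ∀ z t, pt N M f ζ (x z t) 0 = 0 := by
    intro z t
    have : f (Fin.succ 0) = some none := f1
    simp only [pt, this, cz]
  have hp2 : ∀ z t, pt N M f ζ (x z t) 1 = 1 := by
    intro z t
    have : f (Fin.succ 1) = some (some (Sum.inl ⟨0, by omega⟩)) := f2
    simp only [pt, this, cz, pow_zero]
  have hp3 : ∀ z t, pt N M f ζ (x z t) ⟨2, by omega⟩ = x z t := by
    intro z t
    have : f (Fin.succ ⟨2, by omega⟩) = some (some (Sum.inr (⟨0, by omega⟩, true))) := f3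
    simp only [pt, this, cz, mul_zero, pow_zero, one_mul]
  refine ⟨fun z t => pt N M f ζ (x z t), ?_, hp1, hp2, ?_, ?_⟩
  · intro P
    let B : Subalgebra ℂ (ℂ → ℂ) :=
      { carrier := {h | Differentiable ℂ h}
        mul_mem' := fun {a b} ha hb => ha.mul hb
        add_mem' := fun {a b} ha hb => ha.add hb
        algebraMap_mem' := fun q => by
          show Differentiable ℂ (fun _ : ℂ => algebraMap ℂ ℂ q)
          exact differentiable_const _ }
    let ev : ℂ → (B →+* ℂ) := fun z => (Pi.evalRingHom (fun _ : ℂ => ℂ) z).comp B.val.toRingHom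
    have hev : ∀ (b : B) z, ev z b = b.1 z := fun b z => rfl
    let u : B := ⟨fun z => Complex.exp z, Complex.differentiable_exp⟩
    let ui : B := ⟨fun z => Complex.exp (-z), Complex.differentiable_exp.comp differentiable_neg⟩
    have hu : u * ui = 1 := by
      apply Subtype.ext
      funext z
      show Complex.exp z * Complex.exp (-z) = 1
      rw [← Complex.exp_add, add_neg_cancel, Complex.exp_zero]
    obtain ⟨s, hs⟩ := neg_core ev hN u ui (algebraMap ℂ B ζ) hu x (by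
      intro z
      have h1 := pol_map (ev z) N u
      have h2 : ev z u = Complex.exp z := rfl
      rw [h2] at h1
      exact h1.trans (hx z)) (fun a => f a.succ) (MvPolynomial.map (algebraMap ℂ B) P)
    have h3 : (fun z => ∑ t, MvPolynomial.eval (pt N M f ζ (x z t)) P) = s.1 := by
      funext z
      rw [← hev, hs z]
      refine Finset.sum_congr rfl fun t _ => ?_
      rw [MvPolynomial.map_map]
      have h4 : (ev z).comp (algebraMap ℂ B) = RingHom.id ℂ := by
        ext c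
        rfl
      rw [h4, MvPolynomial.map_id]
      rfl
    rw [h3]
    exact s.2
  · intro z t
    exact pt_inj hN hf f0 hζ (Complex.exp_ne_zero z) (rt_eq (hx z) t)
  · rintro ⟨s, hs⟩
    have h1 : ∑ t, x 0 t = ∑ t, x 1 t := by
      rw [← Equiv.sum_comp s (x 1)]
      refine Finset.sum_congr rfl fun t _ => ?_
      rw [← hp3 0 t, ← hp3 1 (s t)]
      exact congrFun (hs t) _
    rw [rt_sum hN (hx 0), rt_sum hN (hx 1)] at h1
    have h2 := add_right_cancel h1
    rw [Complex.exp_zero] at h2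
    have h3 := congrArg Complex.re h2
    rw [show (1 : ℂ) = ((1 : ℝ) : ℂ) by simp, Complex.exp_ofReal_re, Complex.ofReal_re] at h3
    have h4 := Real.add_one_lt_exp (x := 1) one_ne_zero
    linarith

theorem isIntegral_root {N : ℕ} (hN : 1 ≤ N) {u x : ℂ} (hu : IsIntegral ℤ u)
    (hx : x ^ (N + 1) - u * x ^ N - x - u = 0) : IsIntegral ℤ x := by
  let O := integralClosure ℤ ℂ
  have h1 : IsIntegral O x := by
    refine ⟨pol N (⟨u, hu⟩ : O), monic_X_pow_sub ?_, ?_⟩
    · refine (degree_add_le _ _).trans_lt (max_lt ((degree_add_le _ _).trans_lt (max_lt ?_ ?_)) ?_)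
      · refine (degree_C_mul_X_pow_le _ _).trans_lt ?_
        exact_mod_cast Nat.lt_succ_self N
      · rw [degree_X]
        exact_mod_cast (show 1 < N + 1 by omega)
      · refine degree_C_le.trans_lt ?_
        exact_mod_cast (show 0 < N + 1 by omega)
    · rw [← eval_map, pol_map]
      simp only [pol, eval_sub, eval_add, eval_mul, eval_pow, eval_X, eval_C]
      have h2 : algebraMap O ℂ ⟨u, hu⟩ = u := rfl
      rw [h2]
      linear_combination hx
  exact isIntegral_trans x h1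

theorem si_int {S : Finset ℕ} {a : ℂ} (ha : IsIntegral ℤ a) : SI S a := ⟨0, by simpa using ha⟩

theorem si_gd {S : Finset ℕ} (c : integralClosure ℤ ℂ) (hc : (c : ℂ) ≠ 0)
    (h : Gd (∏ p ∈ S, (p : integralClosure ℤ ℂ)) c) : SI S (c : ℂ)⁻¹ := by
  obtain ⟨m, b, hb⟩ := h
  refine ⟨m, ?_⟩
  have h1 := congrArg (algebraMap (integralClosure ℤ ℂ) ℂ) hb
  rw [map_pow, map_prod, map_mul] at h1
  simp only [map_natCast] at h1
  have h2 : algebraMap (integralClosure ℤ ℂ) ℂ c = c := rfl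
  have h3 : algebraMap (integralClosure ℤ ℂ) ℂ b = b := rfl
  rw [h2, h3] at h1
  rw [h1, mul_comm (c : ℂ), mul_assoc, mul_inv_cancel₀ hc, mul_one]
  exact b.2

/-- the integrality of the coordinates and of the inverses of their differences -/
theorem si_cz (hN : 1 ≤ N) {ζ x : ℂ} (hζ : IsPrimitiveRoot ζ (2 * N)) (j : ℕ)
    (hx : x ^ (N + 1) - 2 ^ j * x ^ N - x - 2 ^ j = 0) :
    (∀ a : Idx N, SI (2 * N).primeFactors (cz N ζ x x⁻¹ a)) ∧
      ∀ a b : Idx N, a ≠ none → b ≠ none → a ≠ b →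
        SI (2 * N).primeFactors (cz N ζ x x⁻¹ a - cz N ζ x x⁻¹ b)⁻¹ := by
  have hu2 : IsIntegral ℤ ((2 : ℂ) ^ j) := by
    have := (isIntegral_algebraMap (R := ℤ) (A := ℂ) (x := 2)).pow j
    simpa using this
  have hxi : IsIntegral ℤ x := isIntegral_root hN hu2 hx
  have hζi : IsIntegral ℤ ζ := hζ.isIntegral (by omega)
  have hx0 : x ≠ 0 := root_ne hN (pow_ne_zero j two_ne_zero) hx
  let X' : integralClosure ℤ ℂ := ⟨x, hxi⟩
  let Z' : integralClosure ℤ ℂ := ⟨ζ, hζi⟩
  have hZp : IsPrimitiveRoot Z' (2 * N) :=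
    IsPrimitiveRoot.of_map_of_injective (f := algebraMap (integralClosure ℤ ℂ) ℂ) hζ
      Subtype.val_injective
  have hxe : X' ^ (N + 1) - 2 ^ j * X' ^ N - X' - 2 ^ j = 0 := by
    apply Subtype.ext
    exact hx
  have hD2N : Gd (∏ p ∈ (2 * N).primeFactors, (p : integralClosure ℤ ℂ))
      ((2 * N : ℕ) : integralClosure ℤ ℂ) := by
    refine ⟨2 * N, ?_⟩
    have h1 : (2 * N) ∣ (∏ p ∈ (2 * N).primeFactors, p) ^ (2 * N) :=
      Nat.dvd_prod_primeFactors_pow_self (by omega)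
    have h2 := Nat.cast_dvd_cast (α := integralClosure ℤ ℂ) h1
    rw [Nat.cast_pow, Nat.cast_prod] at h2
    exact h2
  have hD2 : Gd (∏ p ∈ (2 * N).primeFactors, (p : integralClosure ℤ ℂ))
      (2 : integralClosure ℤ ℂ) := by
    refine hD2N.of_dvd ⟨(N : integralClosure ℤ ℂ), ?_⟩
    push_cast
    rfl
  have hdt := gd_dt hZp.pow_eq_one hN hD2N hD2 (hreg_of hZp) (hD2.pow j) hxe
  have hxg : Gd (∏ p ∈ (2 * N).primeFactors, (p : integralClosure ℤ ℂ)) X' := by
    refine (hD2.pow j).of_dvd ⟨X' ^ N - 2 ^ j * X' ^ (N - 1) - 1, ?_⟩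
    obtain ⟨M, rfl⟩ : ∃ M, N = M + 1 := ⟨N - 1, by omega⟩
    rw [Nat.add_sub_cancel]
    linear_combination -hxe
  have hxs : SI (2 * N).primeFactors x⁻¹ := si_gd X' hx0 hxg
  refine ⟨?_, ?_⟩
  · rintro (_ | _ | i | ⟨i, _ | _⟩)
    · exact si_int isIntegral_zero
    · exact si_int isIntegral_zero
    · exact si_int (hζi.pow _)
    · exact (si_int (hζi.pow _)).mul hxs
    · exact (si_int (hζi.pow _)).mul (si_int hxi)
  · intro a b ha hb hab
    have hw : ∀ a : Idx N, SI (2 * N).primeFactors (wz N x⁻¹ a)⁻¹ := by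
      rintro (_ | _ | i | ⟨i, _ | _⟩)
      · simpa only [wz, inv_one] using SI.one
      · simpa only [wz, inv_one] using SI.one
      · simpa only [wz, inv_one] using SI.one
      · simpa only [wz, inv_inv] using si_int hxi
      · simpa only [wz, inv_one] using SI.one
    have hne := cz_ne hN hζ (pow_ne_zero j two_ne_zero) hx a b ha hb hab
    have h1 := cz_sub ζ x x⁻¹ (mul_inv_cancel₀ hx0) a b ha hb
    have hdc : ((dt (vec N Z' X' a) (vec N Z' X' b) : integralClosure ℤ ℂ) : ℂ) =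
        dt (vec N ζ x a) (vec N ζ x b) := by
      have hv : ∀ (a : Idx N) (i : Fin 2), algebraMap (integralClosure ℤ ℂ) ℂ (vec N Z' X' a i) =
          vec N ζ x a i := by
        intro a i
        rcases a with _ | _ | l | ⟨l, _ | _⟩ <;> fin_cases i <;> simp [vec, Z', X']
      have hd : algebraMap (integralClosure ℤ ℂ) ℂ (dt (vec N Z' X' a) (vec N Z' X' b)) =
          dt (vec N ζ x a) (vec N ζ x b) := by
        simp only [dt, map_sub, map_mul, hv]
      exact hd
    have hd0 : dt (vec N ζ x a) (vec N ζ x b) ≠ 0 := by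
      intro h
      rw [h, mul_zero] at h1
      exact hne (sub_eq_zero.1 h1)
    have h2 := si_gd _ (by rwa [hdc]) (hdt a b hab)
    rw [hdc] at h2
    rw [h1, mul_inv, mul_inv]
    exact ((hw a).mul (hw b)).mul h2

/-- **Infinitely many integral points.** -/
theorem neg_ar (hN : 1 ≤ N) (hM : 1 ≤ M) (hMN : M + 1 ≤ 4 * N) :
    ∃ (K : Type) (_ : Field K) (_ : NumberField K) (τ : K →+* ℂ) (S : Finset ℕ),
      (∀ p ∈ S, p.Prime) ∧
      ∃ y : ℕ → Fin (N + 1) → Fin (M + 2) → ℂ,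
        (∀ j t, y j t 0 = 0) ∧ (∀ j t, y j t 1 = 1) ∧ (∀ j t, Function.Injective (y j t)) ∧
        (∀ j, Rat τ (y j)) ∧ (∀ j t a, SI S (y j t a)) ∧
        (∀ j t a b, a ≠ b → SI S (y j t a - y j t b)⁻¹) ∧
        ∀ i j, i ≠ j → ¬ ∃ s : Equiv.Perm (Fin (N + 1)), ∀ t, y i t = y j (s t) := by
  obtain ⟨K, iFk, iNk, z, hz⟩ := exists_cyc (2 * N) (by omega)
  obtain ⟨τ⟩ : Nonempty (K →+* ℂ) := inferInstance
  have hS : ∀ p ∈ (2 * N).primeFactors, p.Prime := fun p hp => Nat.prime_of_mem_primeFactors hp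
  obtain ⟨f, hf, f0, f1, f2, f3⟩ := exists_enum N hN (M + 3) (by omega) (by omega)
  have hζ : IsPrimitiveRoot (τ z) (2 * N) := hz.map_of_injective τ.injective
  choose x hx using fun j : ℕ => exists_rt hN ((2 : ℂ) ^ j)
  have hp1 : ∀ j t, pt N M f (τ z) (x j t) 0 = 0 := by
    intro j t
    have : f (Fin.succ 0) = some none := f1
    simp only [pt, this, cz]
  have hp2 : ∀ j t, pt N M f (τ z) (x j t) 1 = 1 := by
    intro j t
    have : f (Fin.succ 1) = some (some (Sum.inl ⟨0, by omega⟩)) := f2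
    simp only [pt, this, cz, pow_zero]
  have hp3 : ∀ j t, pt N M f (τ z) (x j t) ⟨2, by omega⟩ = x j t := by
    intro j t
    have : f (Fin.succ ⟨2, by omega⟩) = some (some (Sum.inr (⟨0, by omega⟩, true))) := f3
    simp only [pt, this, cz, mul_zero, pow_zero, one_mul]
  have hnn : ∀ a : Fin (M + 2), f a.succ ≠ none := by
    intro a h
    exact Fin.succ_ne_zero a (hf (h.trans f0.symm))
  refine ⟨K, iFk, iNk, τ, (2 * N).primeFactors, hS, fun j t => pt N M f (τ z) (x j t), hp1, hp2,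
    ?_, ?_, ?_, ?_, ?_⟩
  · intro j t
    exact pt_inj hN hf f0 hζ (pow_ne_zero j two_ne_zero) (rt_eq (hx j) t)
  · intro j P
    obtain ⟨s, hs⟩ := neg_core (fun _ : Unit => τ) hN ((2 : K) ^ j) ((2 : K) ^ j)⁻¹ z
      (mul_inv_cancel₀ (pow_ne_zero j two_ne_zero)) (fun _ => x j) (by
      intro _
      have h1 := pol_map τ N ((2 : K) ^ j)
      rw [map_pow, map_ofNat] at h1
      exact h1.trans (hx j)) (fun a => f a.succ) (MvPolynomial.map (algebraMap ℤ K) P)
    refine ⟨s, (hs ()).trans ?_⟩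
    refine Finset.sum_congr rfl fun t _ => ?_
    rw [MvPolynomial.map_map, MvPolynomial.eval_map, MvPolynomial.aeval_def]
    congr 1
    exact Subsingleton.elim _ _
  · intro j t a
    exact (si_cz hN hζ j (rt_eq (hx j) t)).1 _
  · intro j t a b hab
    exact (si_cz hN hζ j (rt_eq (hx j) t)).2 _ _ (hnn a) (hnn b)
      fun h => hab (Fin.succ_injective _ (hf h))
  · rintro i j hij ⟨s, hs⟩
    have h1 : ∑ t, x i t = ∑ t, x j t := by
      rw [← Equiv.sum_comp s (x j)]
      refine Finset.sum_congr rfl fun t _ => ?_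
      rw [← hp3 i t, ← hp3 j (s t)]
      exact congrFun (hs t) _
    rw [rt_sum hN (hx i), rt_sum hN (hx j)] at h1
    have h2 := add_right_cancel h1
    have h3 : ((2 ^ i : ℕ) : ℂ) = ((2 ^ j : ℕ) : ℂ) := by
      push_cast
      exact h2
    exact hij (Nat.pow_right_injective le_rfl (Nat.cast_injective h3))

end

end Pool.Agent.N302.SP
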